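import Mathlib

set_option autoImplicit false

namespace Pool.Agent.LibZetaOmega

/-- Elements of `T` strictly between `a` and `b` in the order induced by `κ`. -/
def gap {β : Type*} [LinearOrder β] (κ : ℕ → β) (T : Set ℕ) (a b : ℕ) : Set ℕ :=
  {u | u ∈ T ∧ κ a < κ u ∧ κ u < κ b}

/-- One level of the tower of approximations. -/
structure Level {β : Type*} [LinearOrder β] (κ : ℕ → β) (side : ℕ → Bool) (T T' : Set ℕ)
    (D : ℕ → Set ℕ) : Prop where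
  inj : Function.Injective κ
  zero : 0 ∈ T'
  sub : T' ⊆ T
  inf : T'.Infinite
  lower : ∀ z ∈ T, ∀ t ∈ T', t < z → t ∈ D z
  upper : ∀ z ∈ T, ∀ t ∈ D z, t ∈ T ∧ t < z
  mono : ∀ z ∈ T, ∀ t ∈ T, t < z → ∀ u ∈ D z, u < t → u ∈ D t
  exact : ∀ z ∈ T', ∀ t ∈ D z, t ∈ T'
  mid : ∀ z ∈ T, ∀ y ∈ D z, ∀ y' ∈ D z, κ y < κ z → κ z < κ y' →
    (∀ u ∈ D z, κ u ≤ κ y ∨ κ y' ≤ κ u) →
    ∃ v ∈ T, v < z ∧ κ y ≤ κ v ∧ κ v ≤ κ y' ∧
      (∀ x ∈ T, x < z → κ y ≤ κ x → κ x ≤ κ y' → x ≤ v) ∧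
      ((κ v < κ z ∧ (v = y ∨ (v ≠ y' ∧ side v = true)) ∧
          ∀ x ∈ T, x < z → ¬ (κ v < κ x ∧ κ x < κ z)) ∨
       (κ z < κ v ∧ (v = y' ∨ (v ≠ y ∧ side v = false)) ∧
          ∀ x ∈ T, x < z → ¬ (κ z < κ x ∧ κ x < κ v)))
  top : ∀ z ∈ T, (∀ u ∈ D z, κ u < κ z) → ∀ x ∈ T, x < z → κ x < κ z
  bot : ∀ z ∈ T, (∀ u ∈ D z, κ z < κ u) → ∀ x ∈ T, x < z → κ z < κ x
  attR : ∀ y ∈ T', ∀ N : ℕ, ∃ w ∈ T, N < w ∧ y < w ∧ (∀ z ∈ T, w ∉ D z) ∧ side w = true ∧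
    κ y < κ w ∧ ∀ u ∈ D w, ¬ (κ y < κ u ∧ κ u < κ w)
  attL : ∀ y ∈ T', ∀ N : ℕ, ∃ w ∈ T, N < w ∧ y < w ∧ (∀ z ∈ T, w ∉ D z) ∧ side w = false ∧
    κ w < κ y ∧ ∀ u ∈ D w, ¬ (κ w < κ u ∧ κ u < κ y)

namespace Level

variable {β : Type*} [LinearOrder β] {κ : ℕ → β} {side : ℕ → Bool} {T T' : Set ℕ}
  {D : ℕ → Set ℕ}

theorem dual (h : Level κ side T T' D) :
    Level (fun x => OrderDual.toDual (κ x)) (fun x => !side x) T T' D where
  inj := fun a b hab => h.inj (OrderDual.toDual.injective hab)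
  zero := h.zero
  sub := h.sub
  inf := h.inf
  lower := h.lower
  upper := h.upper
  mono := h.mono
  exact := h.exact
  mid := by
    intro z hz y hy y' hy' h1 h2 h3
    simp only [OrderDual.toDual_lt_toDual, OrderDual.toDual_le_toDual] at h1 h2 h3 ⊢
    obtain ⟨v, hv, hvz, a1, a2, a3, a4⟩ := h.mid z hz y' hy' y hy h2 h1
      (fun u hu => (h3 u hu).symm)
    refine ⟨v, hv, hvz, a2, a1, fun x hx hxz b1 b2 => a3 x hx hxz b2 b1, ?_⟩
    rcases a4 with ⟨b1, b2, b3⟩ | ⟨b1, b2, b3⟩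
    · right
      refine ⟨b1, ?_, fun x hx hxz hc => b3 x hx hxz ⟨hc.2, hc.1⟩⟩
      rcases b2 with b2 | ⟨b2, b4⟩
      · exact Or.inl b2
      · exact Or.inr ⟨b2, by simp [b4]⟩
    · left
      refine ⟨b1, ?_, fun x hx hxz hc => b3 x hx hxz ⟨hc.2, hc.1⟩⟩
      rcases b2 with b2 | ⟨b2, b4⟩
      · exact Or.inl b2
      · exact Or.inr ⟨b2, by simp [b4]⟩
  top := by
    intro z hz h1 x hx hxz
    simp only [OrderDual.toDual_lt_toDual] at h1 ⊢
    exact h.bot z hz h1 x hx hxz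
  bot := by
    intro z hz h1 x hx hxz
    simp only [OrderDual.toDual_lt_toDual] at h1 ⊢
    exact h.top z hz h1 x hx hxz
  attR := by
    intro y hy N
    obtain ⟨w, hw, a1, a2, a3, a4, a5, a6⟩ := h.attL y hy N
    refine ⟨w, hw, a1, a2, a3, by simp [a4], ?_, ?_⟩
    · simpa using a5
    · intro u hu hc
      simp only [OrderDual.toDual_lt_toDual] at hc
      exact a6 u hu ⟨hc.2, hc.1⟩
  attL := by
    intro y hy N
    obtain ⟨w, hw, a1, a2, a3, a4, a5, a6⟩ := h.attR y hy N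
    refine ⟨w, hw, a1, a2, a3, by simp [a4], ?_, ?_⟩
    · simpa using a5
    · intro u hu hc
      simp only [OrderDual.toDual_lt_toDual] at hc
      exact a6 u hu ⟨hc.2, hc.1⟩

theorem D_finite (h : Level κ side T T' D) {z : ℕ} (hz : z ∈ T) : (D z).Finite :=
  (Set.finite_lt_nat z).subset fun u hu => (h.upper z hz u hu).2

/-- The key protection lemma. -/
theorem K (h : Level κ side T T' D) {t y x : ℕ} (E : Set ℕ)
    (hE : ∀ z ∈ T, t < z → ∀ u ∈ D z, u ≤ t → u ∈ E)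
    (hy : y ∈ T') (hyt : y ≤ t) (hx : x ∈ T) (hxt : x ≤ t)
    (hEyx : ∀ u ∈ E, ¬ (κ y < κ u ∧ κ u ≤ κ x))
    (H : ∀ y' ∈ E, κ x < κ y' → (∀ u ∈ T', u ≤ t → κ u ≤ κ y ∨ κ y' ≤ κ u) →
      ∀ v ∈ T, v ≤ t → κ y ≤ κ v → κ v ≤ κ y' →
      (∀ x' ∈ T, x' ≤ t → κ y ≤ κ x' → κ x' ≤ κ y' → x' ≤ v) →
      κ x < κ v ∨ (x = v ∧ side x = true)) :
    ∀ z ∈ T, t < z → ¬ (κ y < κ z ∧ κ z < κ x) := by
  intro z
  induction z using Nat.strong_induction_on with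
  | _ z ih =>
  rintro hz htz ⟨hyz, hzx⟩
  have hyD : y ∈ D z := h.lower z hz y hy (by omega)
  have hno : ∀ u ∈ D z, ¬ (κ y < κ u ∧ κ u ≤ κ x) := by
    rintro u hu ⟨h1, h2⟩
    obtain ⟨huT, huz⟩ := h.upper z hz u hu
    rcases le_or_gt u t with hut | hut
    · exact hEyx u (hE z hz htz u hu hut) ⟨h1, h2⟩
    · have h3 : κ u < κ x := lt_of_le_of_ne h2 (fun e => by have := h.inj e; omega)
      exact ih u huz huT hut ⟨h1, h3⟩
  by_cases hall : ∀ u ∈ D z, κ u < κ z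
  · exact absurd (h.top z hz hall x hx (by omega)) (not_lt.mpr hzx.le)
  push Not at hall
  obtain ⟨u0, hu0, hu0z⟩ := hall
  have hu0z' : κ z < κ u0 := lt_of_le_of_ne hu0z (fun e => by
    have := h.inj e
    have := (h.upper z hz u0 hu0).2
    omega)
  obtain ⟨y', ⟨hy'D, hzy'⟩, hmin⟩ := Set.exists_min_image {u | u ∈ D z ∧ κ z < κ u} κ
    ((h.D_finite hz).subset fun u hu => hu.1) ⟨u0, hu0, hu0z'⟩
  have adj : ∀ u ∈ D z, κ u ≤ κ y ∨ κ y' ≤ κ u := by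
    intro u hu
    by_contra hcon
    push Not at hcon
    rcases lt_or_ge (κ z) (κ u) with hzu | hzu
    · exact absurd (hmin u ⟨hu, hzu⟩) (not_le.mpr hcon.2)
    · exact hno u hu ⟨hcon.1, hzu.trans hzx.le⟩
  have hxy' : κ x < κ y' := by
    by_contra hcon
    push Not at hcon
    exact hno y' hy'D ⟨hyz.trans hzy', hcon⟩
  obtain ⟨v, hvT, hvz, hyv, hvy', hyoung, hcase⟩ := h.mid z hz y hyD y' hy'D hyz hzy' adj
  have claim : κ x < κ v ∨ (x = v ∧ side x = true) := by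
    rcases le_or_gt v t with hvt | hvt
    · have hy't : y' ≤ t :=
        le_trans (hyoung y' (h.upper z hz y' hy'D).1 (h.upper z hz y' hy'D).2
          (hyz.trans hzy').le le_rfl) hvt
      refine H y' (hE z hz htz y' hy'D hy't) hxy' ?_ v hvT hvt hyv hvy'
        (fun x' hx' hx't => hyoung x' hx' (by omega))
      intro u hu hut
      exact adj u (h.lower z hz u hu (by omega))
    · left
      by_contra hcon
      push Not at hcon
      have h1 : κ y < κ v := lt_of_le_of_ne hyv (fun e => by have := h.inj e; omega)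
      have h2 : κ v < κ x := lt_of_le_of_ne hcon (fun e => by have := h.inj e; omega)
      exact ih v hvz hvT hvt ⟨h1, h2⟩
  rcases hcase with ⟨h1, h2, h3⟩ | ⟨h1, h2, h3⟩
  · rcases claim with c | ⟨rfl, c⟩
    · exact absurd (h1.trans hzx) (not_lt.mpr c.le)
    · exact absurd h1 (not_lt.mpr hzx.le)
  · rcases claim with c | ⟨rfl, c⟩
    · exact h3 x hx (by omega) ⟨hzx, c⟩
    · rcases h2 with rfl | ⟨_, h2⟩
      · exact absurd hxy' (lt_irrefl _)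
      · rw [c] at h2
        exact absurd h2 (by simp)

theorem attR' (h : Level κ side T T' D) {y : ℕ} (hy : y ∈ T') (N : ℕ) :
    ∃ w ∈ T, N < w ∧ κ y < κ w ∧ (∀ u ∈ T', u < w → ¬ (κ y < κ u ∧ κ u < κ w)) ∧
      ∀ z ∈ T, w < z → ¬ (κ y < κ z ∧ κ z < κ w) := by
  obtain ⟨w, hw, hNw, hyw, hnD, hside, hlt, hadj⟩ := h.attR y hy N
  refine ⟨w, hw, hNw, hlt, fun u hu huw => hadj u (h.lower w hw u hu huw), ?_⟩
  refine h.K (D w) ?_ hy hyw.le hw le_rfl ?_ ?_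
  · intro z hz hwz u hu huw
    rcases Nat.lt_or_eq_of_le huw with h1 | h1
    · exact h.mono z hz w hw hwz u hu h1
    · exact absurd (h1 ▸ hu) (hnD z hz)
  · rintro u hu ⟨h1, h2⟩
    refine hadj u hu ⟨h1, lt_of_le_of_ne h2 (fun e => ?_)⟩
    have := h.inj e
    have := (h.upper w hw u hu).2
    omega
  · intro y' _ hwy' _ v hv hvw _ _ hyoung
    right
    exact ⟨le_antisymm (hyoung w hw le_rfl hlt.le hwy'.le) hvw, hside⟩

/-- Right-protectedness of `x` at stage `s0`. -/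
def RP (κ : ℕ → β) (side : ℕ → Bool) (T T' : Set ℕ) (s0 x : ℕ) : Prop :=
  (∃ u ∈ T', u ≤ s0 ∧ κ u < κ x) ∧
  ∀ y ∈ T', y ≤ s0 → κ y < κ x → ∀ y' ∈ T', y' ≤ s0 → κ x < κ y' →
    (∀ u ∈ T', u ≤ s0 → κ u ≤ κ y ∨ κ y' ≤ κ u) →
    ∀ v ∈ T, v ≤ s0 → κ y ≤ κ v → κ v ≤ κ y' →
    (∀ x' ∈ T, x' ≤ s0 → κ y ≤ κ x' → κ x' ≤ κ y' → x' ≤ v) →
    κ x < κ v ∨ (x = v ∧ side x = true)

theorem F1R (h : Level κ side T T' D) {x s0 : ℕ} (hx : x ∈ T) (hxT' : x ∉ T')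
    (hs0 : s0 ∈ T') (hxs0 : x < s0) (hmin : ∀ t ∈ T', x < t → s0 ≤ t)
    (hRP : RP κ side T T' s0 x) :
    ∃ y ∈ T', y < x ∧ κ y < κ x ∧ (gap κ T y x).Finite := by
  obtain ⟨⟨u0, hu0, hu0s, hu0x⟩, hRP⟩ := hRP
  obtain ⟨y, ⟨hyT, hys0, hyx⟩, hmax⟩ := Set.exists_max_image
    {u | u ∈ T' ∧ u ≤ s0 ∧ κ u < κ x} κ
    ((Set.finite_le_nat s0).subset fun u hu => hu.2.1) ⟨u0, hu0, hu0s, hu0x⟩
  have hE : ∀ z ∈ T, s0 < z → ∀ u ∈ D z, u ≤ s0 → u ∈ {u | u ∈ T' ∧ u ≤ s0} := by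
    intro z hz hs0z u hu hus0
    rcases Nat.lt_or_eq_of_le hus0 with h1 | h1
    · exact ⟨h.exact s0 hs0 u (h.mono z hz s0 (h.sub hs0) hs0z u hu h1), hus0⟩
    · exact ⟨h1 ▸ hs0, hus0⟩
  -- `y ≠ s0`
  have hyne : y ≠ s0 := by
    rintro rfl
    by_cases habove : ∃ u ∈ T', u ≤ y ∧ κ x < κ u
    · obtain ⟨u1, hu1, hu1s, hu1x⟩ := habove
      obtain ⟨y', ⟨hy'T, hy's0, hxy'⟩, hmin'⟩ := Set.exists_min_image
        {u | u ∈ T' ∧ u ≤ y ∧ κ x < κ u} κ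
        ((Set.finite_le_nat y).subset fun u hu => hu.2.1) ⟨u1, hu1, hu1s, hu1x⟩
      have := hRP y hyT le_rfl hyx y' hy'T hy's0 hxy' (by
        intro u hu hus
        rcases lt_trichotomy (κ u) (κ x) with h1 | h1 | h1
        · exact Or.inl (hmax u ⟨hu, hus, h1⟩)
        · exact absurd (h.inj h1 ▸ hu) hxT'
        · exact Or.inr (hmin' u ⟨hu, hus, h1⟩)) y (h.sub hyT) le_rfl le_rfl
        (hyx.trans hxy').le (fun x' _ hx' _ _ => hx')
      rcases this with h1 | ⟨h1, _⟩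
      · exact absurd h1 (not_lt.mpr hyx.le)
      · omega
    · push Not at habove
      have := h.top y (h.sub hs0) (by
        intro u hu
        have hu' := h.upper y (h.sub hs0) u hu
        have huT' := h.exact y hs0 u hu
        have h1 : κ u ≤ κ x := habove u huT' hu'.2.le
        have h2 : κ u < κ x := lt_of_le_of_ne h1 (fun e => hxT' (h.inj e ▸ huT'))
        exact lt_of_le_of_ne (hmax u ⟨huT', hu'.2.le, h2⟩)
          (fun e => by have := h.inj e; omega)) x hx hxs0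
      exact absurd this (not_lt.mpr hyx.le)
  have hyltx : y < x := by
    rcases lt_trichotomy y x with h1 | h1 | h1
    · exact h1
    · exact absurd (h1 ▸ hyT) hxT'
    · have := hmin y hyT h1
      omega
  refine ⟨y, hyT, hyltx, hyx, ?_⟩
  have hK := h.K {u | u ∈ T' ∧ u ≤ s0} hE hyT hys0 hx hxs0.le (by
      rintro u ⟨hu, hus⟩ ⟨h1, h2⟩
      rcases lt_or_eq_of_le h2 with h3 | h3
      · exact absurd (hmax u ⟨hu, hus, h3⟩) (not_le.mpr h1)
      · exact hxT' (h.inj h3 ▸ hu))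
    (by
      rintro y' ⟨hy', hy's⟩ hxy' hadj v hv hvs h1 h2 hyoung
      exact hRP y hyT hys0 hyx y' hy' hy's hxy' hadj v hv hvs h1 h2 hyoung)
  refine (Set.finite_le_nat s0).subset ?_
  rintro z ⟨hz, h1, h2⟩
  by_contra hcon
  exact hK z hz (not_le.mp hcon) ⟨h1, h2⟩

theorem exists_next (h : Level κ side T T' D) (x : ℕ) :
    ∃ s0 ∈ T', x < s0 ∧ ∀ t ∈ T', x < t → s0 ≤ t := by
  classical
  have hex : ∃ s, s ∈ T' ∧ x < s := by
    obtain ⟨s, hs, hxs⟩ := h.inf.exists_gt x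
    exact ⟨s, hs, hxs⟩
  exact ⟨Nat.find hex, (Nat.find_spec hex).1, (Nat.find_spec hex).2,
    fun t ht hxt => Nat.find_min' hex ⟨ht, hxt⟩⟩

theorem gap_empty {T : Set ℕ} {a b : ℕ} (hab : κ b ≤ κ a) : gap κ T a b = ∅ := by
  ext u
  simp only [gap, Set.mem_ofPred_eq, Set.mem_empty_iff_false, iff_false, not_and, not_lt]
  intro _ h1
  exact hab.trans h1.le

/-- Every element of `T` is at finite distance (in `T`) from an element of `T'` which is at most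
as old. -/
theorem F1 (h : Level κ side T T' D) {x : ℕ} (hx : x ∈ T) :
    ∃ y ∈ T', y ≤ x ∧ (gap κ T y x).Finite ∧ (gap κ T x y).Finite := by
  by_cases hxT' : x ∈ T'
  · refine ⟨x, hxT', le_rfl, ?_, ?_⟩ <;>
    · rw [gap_empty le_rfl]; exact Set.finite_empty
  obtain ⟨s0, hs0, hxs0, hmin⟩ := h.exists_next x
  by_cases hR : RP κ side T T' s0 x
  · obtain ⟨y, hy, h1, h2, h3⟩ := h.F1R hx hxT' hs0 hxs0 hmin hR
    refine ⟨y, hy, h1.le, h3, ?_⟩
    rw [gap_empty h2.le]; exact Set.finite_empty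
  by_cases hL : RP (fun x => OrderDual.toDual (κ x)) (fun x => !side x) T T' s0 x
  · obtain ⟨y, hy, h1, h2, h3⟩ := h.dual.F1R hx hxT' hs0 hxs0 hmin hL
    simp only [OrderDual.toDual_lt_toDual] at h2
    refine ⟨y, hy, h1.le, ?_, ?_⟩
    · rw [gap_empty h2.le]; exact Set.finite_empty
    · refine h3.subset ?_
      rintro u ⟨a1, a2, a3⟩
      exact ⟨a1, by simpa using a3, by simpa using a2⟩
  exfalso
  have h0x : (0 : ℕ) ≠ x := fun e => hxT' (e ▸ h.zero)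
  have h0 : κ 0 ≠ κ x := fun e => h0x (h.inj e)
  by_cases hbelow : ∃ u ∈ T', u ≤ s0 ∧ κ u < κ x
  · by_cases habove : ∃ u ∈ T', u ≤ s0 ∧ κ x < κ u
    · have hR2 : ¬ (∀ y ∈ T', y ≤ s0 → κ y < κ x → ∀ y' ∈ T', y' ≤ s0 → κ x < κ y' →
        (∀ u ∈ T', u ≤ s0 → κ u ≤ κ y ∨ κ y' ≤ κ u) →
        ∀ v ∈ T, v ≤ s0 → κ y ≤ κ v → κ v ≤ κ y' →
        (∀ x' ∈ T, x' ≤ s0 → κ y ≤ κ x' → κ x' ≤ κ y' → x' ≤ v) →
        κ x < κ v ∨ (x = v ∧ side x = true)) := fun hc => hR ⟨hbelow, hc⟩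
      have hL2 : ¬ (∀ y ∈ T', y ≤ s0 → κ x < κ y → ∀ y' ∈ T', y' ≤ s0 → κ y' < κ x →
        (∀ u ∈ T', u ≤ s0 → κ y ≤ κ u ∨ κ u ≤ κ y') →
        ∀ v ∈ T, v ≤ s0 → κ v ≤ κ y → κ y' ≤ κ v →
        (∀ x' ∈ T, x' ≤ s0 → κ x' ≤ κ y → κ y' ≤ κ x' → x' ≤ v) →
        κ v < κ x ∨ (x = v ∧ (!side x) = true)) := by
        intro hc
        apply hL
        refine ⟨?_, ?_⟩
        · simpa using habove
        · simpa only [OrderDual.toDual_lt_toDual, OrderDual.toDual_le_toDual] using hc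
      push Not at hR2 hL2
      obtain ⟨y, hy, hys, hyx, y', hy', hy's, hxy', hadj, v, hv, hvs, hyv, hvy', hyoung,
        hv1, hv2⟩ := hR2
      obtain ⟨w', hw', hw's, hxw', w, hw, hws, hwx, hadj2, v2, hv2T, hv2s, hw'v, hvw, hyoung2,
        hv3, hv4⟩ := hL2
      have e1 : y = w := by
        apply h.inj
        apply le_antisymm
        · rcases hadj2 y hy hys with h1 | h1
          · exact absurd hyx (not_lt.mpr (hxw'.le.trans h1))
          · exact h1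
        · rcases hadj w hw hws with h1 | h1
          · exact h1
          · exact absurd hwx (not_lt.mpr (hxy'.le.trans h1))
      have e2 : y' = w' := by
        apply h.inj
        apply le_antisymm
        · rcases hadj w' hw' hw's with h1 | h1
          · exact absurd hxw' (not_lt.mpr (h1.trans hyx.le))
          · exact h1
        · rcases hadj2 y' hy' hy's with h1 | h1
          · exact h1
          · exact absurd hxy' (not_lt.mpr (h1.trans hwx.le))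
      subst e1 e2
      have e3 : v = v2 := le_antisymm (hyoung2 v hv hvs hvy' hyv) (hyoung v2 hv2T hv2s hvw hw'v)
      subst e3
      have e4 : x = v := h.inj (le_antisymm hv3 hv1)
      have h5 := hv2 e4
      have h6 := hv4 e4
      simp at h6
      rw [h6] at h5
      exact h5 rfl
    · apply hR
      refine ⟨hbelow, ?_⟩
      intro y _ _ _ y' hy' hy's hxy'
      exact absurd ⟨y', hy', hy's, hxy'⟩ habove
  · have habove : ∃ u ∈ T', u ≤ s0 ∧ κ x < κ u := by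
      refine ⟨0, h.zero, Nat.zero_le _, ?_⟩
      rcases lt_or_gt_of_ne h0 with h1 | h1
      · exact absurd ⟨0, h.zero, Nat.zero_le _, h1⟩ hbelow
      · exact h1
    apply hL
    refine ⟨?_, ?_⟩
    · simpa using habove
    · intro y _ _ _ y' hy' hy's hxy'
      simp only [OrderDual.toDual_lt_toDual] at hxy'
      exact absurd ⟨y', hy', hy's, hxy'⟩ hbelow

theorem F2 (h : Level κ side T T' D) {y y' : ℕ} (hy : y ∈ T') (hy' : y' ∈ T')
    (hlt : κ y < κ y') : (gap κ T y y').Infinite := by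
  apply Set.infinite_of_forall_exists_gt
  intro N
  obtain ⟨w, hw, hNw, h1, h2, _⟩ := h.attR' hy (max N y')
  refine ⟨w, ⟨hw, h1, ?_⟩, lt_of_le_of_lt (le_max_left _ _) hNw⟩
  have hy'w : y' < w := lt_of_le_of_lt (le_max_right _ _) hNw
  have := h2 y' hy' hy'w
  push Not at this
  exact lt_of_le_of_ne (this hlt) (fun e => by have := h.inj e; omega)

theorem F3 (h : Level κ side T T' D) {y x : ℕ} (hy : y ∈ T')
    (hfin : (gap κ T y x).Finite) : ∃ w ∈ T, κ x < κ w ∧ (gap κ T y w).Finite := by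
  have hinf : {w | w ∈ T ∧ κ y < κ w ∧ ∀ z ∈ T, w < z → ¬ (κ y < κ z ∧ κ z < κ w)}.Infinite := by
    apply Set.infinite_of_forall_exists_gt
    intro N
    obtain ⟨w, hw, hNw, h1, _, h3⟩ := h.attR' hy N
    exact ⟨w, ⟨hw, h1, h3⟩, hNw⟩
  obtain ⟨w, ⟨hw, h1, h2⟩, h3⟩ := (hinf.sdiff (hfin.union (Set.finite_singleton x))).nonempty
  refine ⟨w, hw, ?_, ?_⟩
  · by_contra hcon
    push Not at hcon
    apply h3
    rcases lt_or_eq_of_le hcon with h4 | h4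
    · exact Or.inl ⟨hw, h1, h4⟩
    · exact Or.inr (h.inj h4)
  · refine (Set.finite_le_nat w).subset ?_
    rintro z ⟨hz, a1, a2⟩
    by_contra hcon
    exact h2 z hz (not_le.mp hcon) ⟨a1, a2⟩

theorem F3L (h : Level κ side T T' D) {y x : ℕ} (hy : y ∈ T')
    (hfin : (gap κ T x y).Finite) : ∃ w ∈ T, κ w < κ x ∧ (gap κ T w y).Finite := by
  have hfin' : (gap (fun x => OrderDual.toDual (κ x)) T y x).Finite := by
    refine hfin.subset ?_
    rintro u ⟨a1, a2, a3⟩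
    exact ⟨a1, by simpa using a3, by simpa using a2⟩
  obtain ⟨w, hw, h1, h2⟩ := h.dual.F3 hy hfin'
  refine ⟨w, hw, by simpa using h1, h2.subset ?_⟩
  rintro u ⟨a1, a2, a3⟩
  exact ⟨a1, by simpa using a3, by simpa using a2⟩

end Level

end Pool.Agent.LibZetaOmega
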