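import Mathlib
import Pool.Agent.LibZetaOmega.Level

set_option autoImplicit false

namespace Pool.Agent.LibZetaOmega

theorem exists_int_iso {ι : Type*} [LinearOrder ι] (h : ∀ a b : ι, (Set.Icc a b).Finite)
    (hmax : NoMaxOrder ι) (hmin : NoMinOrder ι) (i0 : ι) : ∃ e : ι ≃o ℤ, e i0 = 0 := by
  classical
  let _ : LocallyFiniteOrder ι := LocallyFiniteOrder.ofFiniteIcc h
  let _ : SuccOrder ι := LinearLocallyFiniteOrder.succOrder ι
  let _ : PredOrder ι := LinearLocallyFiniteOrder.predOrder ι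
  have : Nonempty ι := ⟨i0⟩
  let e0 : ι ≃o ℤ := orderIsoIntOfLinearSuccPredArch
  refine ⟨e0.trans (OrderIso.addRight (-e0 i0)), ?_⟩
  simp

/-- What a tower needs from one level. -/
structure Fib {β : Type*} [LinearOrder β] (κ : ℕ → β) (T T' : Set ℕ) (π : ℕ → ℕ) (c : ℕ → ℤ) :
    Prop where
  sub : T' ⊆ T
  map : ∀ x ∈ T, π x ∈ T'
  le : ∀ x ∈ T, π x ≤ x
  fix : ∀ y ∈ T', π y = y
  mono : ∀ x ∈ T, ∀ x' ∈ T, κ x ≤ κ x' → κ (π x) ≤ κ (π x')
  fin : ∀ x ∈ T, ∀ x' ∈ T, π x = π x' → (gap κ T x x').Finite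
  zero : ∀ y ∈ T', c y = 0
  lt : ∀ x ∈ T, ∀ x' ∈ T, π x = π x' → κ x < κ x' → c x < c x'
  surj : ∀ y ∈ T', ∀ k : ℤ, ∃ x ∈ T, π x = y ∧ c x = k

variable {β : Type*} [LinearOrder β] {κ : ℕ → β} {side : ℕ → Bool} {T T' : Set ℕ}
  {D : ℕ → Set ℕ}

theorem gap_subset_union {T : Set ℕ} (a b c : ℕ) (hinj : Function.Injective κ) :
    gap κ T a b ⊆ gap κ T a c ∪ {c} ∪ gap κ T c b := by
  rintro u ⟨h1, h2, h3⟩
  rcases lt_trichotomy (κ u) (κ c) with h | h | h
  · exact Or.inl (Or.inl ⟨h1, h2, h⟩)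
  · exact Or.inl (Or.inr (hinj h))
  · exact Or.inr ⟨h1, h, h3⟩

theorem gap_finite_trans {T : Set ℕ} {a b : ℕ} (c : ℕ) (hinj : Function.Injective κ)
    (h1 : (gap κ T a c).Finite) (h2 : (gap κ T c b).Finite) : (gap κ T a b).Finite :=
  ((h1.union (Set.finite_singleton c)).union h2).subset (gap_subset_union a b c hinj)

/-- A block of the projection. -/
structure Blk (T : Set ℕ) (π : ℕ → ℕ) (y : ℕ) where
  val : ℕ
  mem : val ∈ T
  eq : π val = y

theorem Blk.ext' {T : Set ℕ} {π : ℕ → ℕ} {y : ℕ} {a b : Blk T π y} (h : a.val = b.val) :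
    a = b := by
  cases a; cases b; simp only at h; subst h; rfl

theorem Level.one_level (h : Level κ side T T' D) : ∃ (π : ℕ → ℕ) (c : ℕ → ℤ),
    Fib κ T T' π c := by
  classical
  have hinj := h.inj
  -- choose the projection
  have hex : ∀ x, ∃ y, x ∈ T → (y ∈ T' ∧ y ≤ x ∧ (gap κ T y x).Finite ∧ (gap κ T x y).Finite) := by
    intro x
    by_cases hx : x ∈ T
    · obtain ⟨y, hy⟩ := h.F1 hx
      exact ⟨y, fun _ => hy⟩
    · exact ⟨0, fun hx' => absurd hx' hx⟩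
  choose π hπ using hex
  have uniq : ∀ y ∈ T', ∀ y' ∈ T', (gap κ T y y').Finite → (gap κ T y' y).Finite → y = y' := by
    intro y hy y' hy' h1 h2
    rcases lt_trichotomy (κ y) (κ y') with h3 | h3 | h3
    · exact absurd h1 (h.F2 hy hy' h3)
    · exact hinj h3
    · exact absurd h2 (h.F2 hy' hy h3)
  have fix : ∀ y ∈ T', π y = y := by
    intro y hy
    obtain ⟨a1, a2, a3, a4⟩ := hπ y (h.sub hy)
    exact uniq _ a1 _ hy a3 a4
  have mono : ∀ x ∈ T, ∀ x' ∈ T, κ x ≤ κ x' → κ (π x) ≤ κ (π x') := by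
    intro x hx x' hx' hxx'
    by_contra hcon
    push Not at hcon
    obtain ⟨a1, a2, a3, a4⟩ := hπ x hx
    obtain ⟨b1, b2, b3, b4⟩ := hπ x' hx'
    refine h.F2 b1 a1 hcon ?_
    refine ((b3.union (Set.finite_singleton x')).union a4).subset ?_
    rintro u ⟨c1, c2, c3⟩
    rcases lt_trichotomy (κ u) (κ x') with h1 | h1 | h1
    · exact Or.inl (Or.inl ⟨c1, c2, h1⟩)
    · exact Or.inl (Or.inr (hinj h1))
    · exact Or.inr ⟨c1, hxx'.trans_lt h1, c3⟩
  have fin : ∀ x ∈ T, ∀ x' ∈ T, π x = π x' → (gap κ T x x').Finite := by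
    intro x hx x' hx' he
    obtain ⟨a1, a2, a3, a4⟩ := hπ x hx
    obtain ⟨b1, b2, b3, b4⟩ := hπ x' hx'
    exact gap_finite_trans (π x) hinj a4 (he ▸ b3)
  -- blocks
  have blk : ∀ y : ℕ, ∃ c : ℕ → ℤ, y ∈ T' → (c y = 0 ∧
      (∀ x ∈ T, ∀ x' ∈ T, π x = y → π x' = y → κ x < κ x' → c x < c x') ∧
      ∀ k : ℤ, ∃ x ∈ T, π x = y ∧ c x = k) := by
    intro y
    by_cases hy : y ∈ T'
    swap
    · exact ⟨fun _ => 0, fun hy' => absurd hy' hy⟩
    let _ : LinearOrder (Blk T π y) :=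
      LinearOrder.lift' (fun x : Blk T π y => κ x.1)
        (fun a b hab => Blk.ext' (hinj hab))
    have hlt : ∀ a b : Blk T π y, a < b ↔ κ a.1 < κ b.1 := fun a b => Iff.rfl
    have hle : ∀ a b : Blk T π y, a ≤ b ↔ κ a.1 ≤ κ b.1 := fun a b => Iff.rfl
    obtain ⟨e, he⟩ := exists_int_iso (ι := Blk T π y)
      (by
        intro a b
        have h1 := fin a.1 a.2 b.1 b.2 (by rw [a.3, b.3])
        have h2 : ((gap κ T a.1 b.1) ∪ {a.1} ∪ {b.1}).Finite :=
          (h1.union (Set.finite_singleton _)).union (Set.finite_singleton _)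
        refine Set.Finite.of_injOn (f := fun x : Blk T π y => x.1) ?_
          (fun x _ x' _ hxx' => Blk.ext' hxx') h2
        rintro x ⟨h3, h4⟩
        rw [hle] at h3 h4
        rcases lt_or_eq_of_le h3 with h5 | h5
        · rcases lt_or_eq_of_le h4 with h6 | h6
          · exact Or.inl (Or.inl ⟨x.2, h5, h6⟩)
          · exact Or.inr (hinj h6)
        · exact Or.inl (Or.inr (hinj h5).symm))
      ⟨by
        intro a
        obtain ⟨a1, a2, a3, a4⟩ := hπ a.1 a.2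
        rw [a.3] at a1 a2 a3 a4
        obtain ⟨w, hw, hw1, hw2⟩ := h.F3 hy a3
        obtain ⟨b1, b2, b3, b4⟩ := hπ w hw
        refine ⟨(⟨w, hw, ?_⟩ : Blk T π y), ?_⟩
        · apply uniq _ b1 _ hy
          · refine gap_finite_trans w hinj b3 ?_
            refine (a4.union (Set.finite_singleton a.1)).subset ?_
            rintro u ⟨c1, c2, c3⟩
            exact Or.inl ⟨c1, hw1.trans c2, c3⟩
          · exact gap_finite_trans w hinj hw2 b4
        · rw [hlt]; exact hw1⟩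
      ⟨by
        intro a
        obtain ⟨a1, a2, a3, a4⟩ := hπ a.1 a.2
        rw [a.3] at a1 a2 a3 a4
        obtain ⟨w, hw, hw1, hw2⟩ := h.F3L hy a4
        obtain ⟨b1, b2, b3, b4⟩ := hπ w hw
        refine ⟨(⟨w, hw, ?_⟩ : Blk T π y), ?_⟩
        · apply uniq _ b1 _ hy
          · exact gap_finite_trans w hinj b3 hw2
          · refine gap_finite_trans w hinj ?_ b4
            refine a3.subset ?_
            rintro u ⟨c1, c2, c3⟩
            exact ⟨c1, c2, c3.trans hw1⟩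
        · rw [hlt]; exact hw1⟩
      ⟨y, h.sub hy, fix y hy⟩
    refine ⟨fun x => if hx : x ∈ T ∧ π x = y then e ⟨x, hx.1, hx.2⟩ else 0,
      fun _ => ⟨?_, ?_, ?_⟩⟩
    · have : y ∈ T ∧ π y = y := ⟨h.sub hy, fix y hy⟩
      beta_reduce
      rw [dif_pos this]
      exact he
    · intro x hx x' hx' h1 h2 h3
      have a1 : x ∈ T ∧ π x = y := ⟨hx, h1⟩
      have a2 : x' ∈ T ∧ π x' = y := ⟨hx', h2⟩
      beta_reduce
      rw [dif_pos a1, dif_pos a2]
      exact e.lt_iff_lt.mpr h3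
    · intro k
      refine ⟨(e.symm k).1, (e.symm k).2, (e.symm k).3, ?_⟩
      have a1 : (e.symm k).1 ∈ T ∧ π (e.symm k).1 = y := ⟨(e.symm k).2, (e.symm k).3⟩
      beta_reduce
      rw [dif_pos a1]
      exact e.apply_symm_apply k
  choose c hc using blk
  refine ⟨π, fun x => c (π x) x, ?_⟩
  refine ⟨h.sub, fun x hx => (hπ x hx).1, fun x hx => (hπ x hx).2.1, fix, mono, fin, ?_, ?_, ?_⟩
  · intro y hy
    rw [fix y hy]
    exact (hc y hy).1
  · intro x hx x' hx' he hlt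
    rw [← he]
    exact (hc (π x) (hπ x hx).1).2.1 x hx x' hx' rfl he.symm hlt
  · intro y hy k
    obtain ⟨x, hx, h1, h2⟩ := (hc y hy).2.2 k
    exact ⟨x, hx, h1, by rw [h1]; exact h2⟩

end Pool.Agent.LibZetaOmega
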