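import Mathlib
import Pool.Agent.LibZetaOmega.OneLevel

set_option autoImplicit false

namespace Pool.Agent.LibZetaOmega

/-- Iterated projections. -/
def xs (π : ℕ → ℕ → ℕ) (x : ℕ) : ℕ → ℕ
  | 0 => x
  | n + 1 => π n (xs π x n)

/-- A tower. -/
structure Tower {β : Type*} [LinearOrder β] (κ : ℕ → β) (T : ℕ → Set ℕ) (π : ℕ → ℕ → ℕ)
    (c : ℕ → ℕ → ℤ) : Prop where
  inj : Function.Injective κ
  all : ∀ x, x ∈ T 0
  fib : ∀ n, Fib κ (T n) (T (n + 1)) (π n) (c n)

namespace Tower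

variable {β : Type*} [LinearOrder β] {κ : ℕ → β} {T : ℕ → Set ℕ} {π : ℕ → ℕ → ℕ}
  {c : ℕ → ℕ → ℤ}

theorem xs_mem (h : Tower κ T π c) (x n : ℕ) : xs π x n ∈ T n := by
  induction n with
  | zero => exact h.all x
  | succ n ih => exact (h.fib n).map _ ih

theorem xs_anti (h : Tower κ T π c) (x : ℕ) : Antitone (xs π x) :=
  antitone_nat_of_succ_le fun n => (h.fib n).le _ (h.xs_mem x n)

theorem T_anti (h : Tower κ T π c) : Antitone T :=
  antitone_nat_of_succ_le fun n => (h.fib n).sub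

theorem stab (h : Tower κ T π c) (x : ℕ) : ∃ N, ∀ n, N ≤ n → xs π x n = xs π x N := by
  obtain ⟨N, hN⟩ := WellFounded.has_min (wellFounded_lt (α := ℕ)) (Set.range (xs π x))
    ⟨_, ⟨0, rfl⟩⟩
  obtain ⟨⟨M, rfl⟩, h2⟩ := hN
  refine ⟨M, fun n hn => le_antisymm (h.xs_anti x hn) ?_⟩
  exact not_lt.mp (h2 _ ⟨n, rfl⟩)

/-- The eventual value. -/
noncomputable def rho (h : Tower κ T π c) (x : ℕ) : ℕ := xs π x (h.stab x).choose

theorem rho_eq (h : Tower κ T π c) (x : ℕ) : ∃ N, ∀ n, N ≤ n → xs π x n = h.rho x :=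
  ⟨(h.stab x).choose, (h.stab x).choose_spec⟩

theorem rho_mem (h : Tower κ T π c) (x n : ℕ) : h.rho x ∈ T n := by
  obtain ⟨N, hN⟩ := h.rho_eq x
  rcases le_total N n with h1 | h1
  · rw [← hN n h1]; exact h.xs_mem x n
  · rw [← hN N le_rfl]; exact h.T_anti h1 (h.xs_mem x N)

theorem rho_le (h : Tower κ T π c) (x : ℕ) : h.rho x ≤ x := by
  obtain ⟨N, hN⟩ := h.rho_eq x
  rw [← hN N le_rfl]
  exact h.xs_anti x (Nat.zero_le N)

theorem xs_mono (h : Tower κ T π c) {x y : ℕ} (hxy : κ x ≤ κ y) (n : ℕ) :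
    κ (xs π x n) ≤ κ (xs π y n) := by
  induction n with
  | zero => exact hxy
  | succ n ih => exact (h.fib n).mono _ (h.xs_mem x n) _ (h.xs_mem y n) ih

theorem rho_eq_two (h : Tower κ T π c) (x y : ℕ) :
    ∃ N, ∀ n, N ≤ n → xs π x n = h.rho x ∧ xs π y n = h.rho y := by
  obtain ⟨N, hN⟩ := h.rho_eq x
  obtain ⟨M, hM⟩ := h.rho_eq y
  exact ⟨max N M, fun n hn => ⟨hN n (le_trans (le_max_left _ _) hn),
    hM n (le_trans (le_max_right _ _) hn)⟩⟩

theorem rho_mono (h : Tower κ T π c) {x y : ℕ} (hxy : κ x ≤ κ y) : κ (h.rho x) ≤ κ (h.rho y) := by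
  obtain ⟨N, hN⟩ := h.rho_eq_two x y
  rw [← (hN N le_rfl).1, ← (hN N le_rfl).2]
  exact h.xs_mono hxy N

theorem coord_zero (h : Tower κ T π c) (x n : ℕ) (hx : xs π x n ∈ T (n + 1)) :
    c n (xs π x n) = 0 := (h.fib n).zero _ hx

theorem coord_finite (h : Tower κ T π c) (x : ℕ) :
    (Function.support fun i : ℕᵒᵈ => c (OrderDual.ofDual i) (xs π x (OrderDual.ofDual i))).Finite := by
  obtain ⟨N, hN⟩ := h.rho_eq x
  have h1 : (OrderDual.ofDual ⁻¹' {n : ℕ | n < N}).Finite :=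
    (Set.finite_lt_nat N).preimage (OrderDual.ofDual.injective.injOn)
  refine h1.subset ?_
  intro i hi
  by_contra hcon
  have h2 : N ≤ OrderDual.ofDual i := not_lt.mp hcon
  apply hi
  apply h.coord_zero
  rw [hN _ h2]
  exact h.rho_mem x _

/-- The coordinates. -/
noncomputable def coord (h : Tower κ T π c) (x : ℕ) : ℕᵒᵈ →₀ ℤ :=
  Finsupp.ofSupportFinite _ (h.coord_finite x)

theorem coord_apply (h : Tower κ T π c) (x : ℕ) (i : ℕᵒᵈ) :
    h.coord x i = c (OrderDual.ofDual i) (xs π x (OrderDual.ofDual i)) := rfl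

theorem coord_lt (h : Tower κ T π c) {x y : ℕ} (hxy : κ x < κ y) (hr : h.rho x = h.rho y) :
    toLex (h.coord x) < toLex (h.coord y) := by
  classical
  obtain ⟨N, hN⟩ := h.rho_eq_two x y
  have hex : ∃ n, xs π x n = xs π y n := ⟨N, by rw [(hN N le_rfl).1, (hN N le_rfl).2, hr]⟩
  have hm := Nat.find_spec hex
  have hmin : ∀ k, k < Nat.find hex → xs π x k ≠ xs π y k := fun k hk => Nat.find_min hex hk
  generalize Nat.find hex = m at hm hmin
  cases m with
  | zero =>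
    exact absurd (show κ x < κ x by
      have : x = y := hm
      rw [← this] at hxy; exact hxy) (lt_irrefl _)
  | succ k =>
    have h1 := hmin k (Nat.lt_succ_self k)
    have h2 : κ (xs π x k) < κ (xs π y k) :=
      lt_of_le_of_ne (h.xs_mono hxy.le k) (fun e => h1 (h.inj e))
    have h3 := (h.fib k).lt _ (h.xs_mem x k) _ (h.xs_mem y k) hm h2
    rw [Finsupp.Lex.lt_iff]
    refine ⟨OrderDual.toDual k, ?_, ?_⟩
    · intro j hj
      have hj' : k < OrderDual.ofDual j := hj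
      have h4 : ∀ d, xs π x (k + 1 + d) = xs π y (k + 1 + d) := by
        intro d
        induction d with
        | zero => exact hm
        | succ d ih =>
          change π _ (xs π x (k + 1 + d)) = π _ (xs π y (k + 1 + d))
          rw [ih]
      obtain ⟨d, hd⟩ := Nat.exists_eq_add_of_le (Nat.succ_le_of_lt hj')
      change h.coord x j = h.coord y j
      rw [coord_apply, coord_apply, hd]
      have := h4 d
      rw [Nat.succ_eq_add_one, this]
    · exact h3

theorem exists_coord (h : Tower κ T π c) (f : ℕ → ℤ) (m : ℕ) :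
    ∀ y ∈ T m, ∃ x, xs π x m = y ∧ ∀ n, n < m → c n (xs π x n) = f n := by
  induction m with
  | zero => intro y _; exact ⟨y, rfl, fun n hn => absurd hn (Nat.not_lt_zero n)⟩
  | succ m ih =>
    intro y hy
    obtain ⟨x', hx', h1, h2⟩ := (h.fib m).surj y hy (f m)
    obtain ⟨x, h3, h4⟩ := ih x' hx'
    refine ⟨x, ?_, ?_⟩
    · change π m (xs π x m) = y
      rw [h3, h1]
    · intro n hn
      rcases Nat.lt_or_eq_of_le (Nat.le_of_lt_succ hn) with h5 | h5
      · exact h4 n h5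
      · rw [h5, h3, h2]

theorem exists_of_coord (h : Tower κ T π c) (r : ℕ) (hr : ∀ n, r ∈ T n) (f : ℕᵒᵈ →₀ ℤ) :
    ∃ x, h.rho x = r ∧ h.coord x = f := by
  classical
  -- bound on the support
  obtain ⟨N, hN⟩ : ∃ N : ℕ, ∀ i : ℕᵒᵈ, N ≤ OrderDual.ofDual i → f i = 0 := by
    refine ⟨(f.support.sup (fun i => (OrderDual.ofDual i : ℕ))) + 1, ?_⟩
    intro i hi
    by_contra hcon
    have h1 : i ∈ f.support := Finsupp.mem_support_iff.mpr hcon
    have h2 := Finset.le_sup (f := fun i : ℕᵒᵈ => (OrderDual.ofDual i : ℕ)) h1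
    omega
  obtain ⟨x, h1, h2⟩ := h.exists_coord (fun n => f (OrderDual.toDual n)) N r (hr N)
  have h3 : ∀ d, xs π x (N + d) = r := by
    intro d
    induction d with
    | zero => exact h1
    | succ d ih =>
      change π _ (xs π x (N + d)) = r
      rw [ih]
      exact (h.fib _).fix r (hr _)
  refine ⟨x, ?_, ?_⟩
  · obtain ⟨M, hM⟩ := h.rho_eq x
    rw [← hM (N + M) (by omega), h3]
  · ext i
    rw [coord_apply]
    rcases lt_or_ge (OrderDual.ofDual i) N with h4 | h4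
    · exact h2 _ h4
    · obtain ⟨d, hd⟩ := Nat.exists_eq_add_of_le h4
      rw [hN i h4, hd, h3 d]
      exact (h.fib _).zero _ (hr _)

/-- The order type of a tower whose limit is dense without end points. -/
theorem exists_iso (h : Tower κ T π c)
    (hne : ∃ r, ∀ n, r ∈ T n)
    (hdense : ∀ a b, (∀ n, a ∈ T n) → (∀ n, b ∈ T n) → κ a < κ b →
      ∃ d, (∀ n, d ∈ T n) ∧ κ a < κ d ∧ κ d < κ b)
    (hmax : ∀ a, (∀ n, a ∈ T n) → ∃ d, (∀ n, d ∈ T n) ∧ κ a < κ d)
    (hmin : ∀ a, (∀ n, a ∈ T n) → ∃ d, (∀ n, d ∈ T n) ∧ κ d < κ a) :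
    ∃ f : ℕ ≃ Lex (ℚ × Lex (ℕᵒᵈ →₀ ℤ)), ∀ a b : ℕ, κ a < κ b ↔ f a < f b := by
  classical
  -- the limit
  let W := Blk {r : ℕ | ∀ n, r ∈ T n} (fun _ => 0) 0
  let _ : LinearOrder W := LinearOrder.lift' (fun x : W => κ x.1)
    (fun a b hab => Blk.ext' (h.inj hab))
  have hlt : ∀ a b : W, a < b ↔ κ a.1 < κ b.1 := fun a b => Iff.rfl
  have : Countable W := by
    refine ⟨⟨fun x => x.val, fun a b hab => Blk.ext' hab⟩⟩
  have : DenselyOrdered W := ⟨by
    intro a b hab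
    obtain ⟨d, h1, h2, h3⟩ := hdense a.1 b.1 a.2 b.2 ((hlt a b).mp hab)
    exact ⟨⟨d, h1, rfl⟩, h2, h3⟩⟩
  have : NoMaxOrder W := ⟨by
    intro a
    obtain ⟨d, h1, h2⟩ := hmax a.1 a.2
    exact ⟨⟨d, h1, rfl⟩, h2⟩⟩
  have : NoMinOrder W := ⟨by
    intro a
    obtain ⟨d, h1, h2⟩ := hmin a.1 a.2
    exact ⟨⟨d, h1, rfl⟩, h2⟩⟩
  have : Nonempty W := by
    obtain ⟨r, hr⟩ := hne
    exact ⟨⟨r, hr, rfl⟩⟩
  obtain ⟨g⟩ := Order.iso_of_countable_dense W ℚ
  let Rr : ℕ → W := fun x => ⟨h.rho x, h.rho_mem x, rfl⟩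
  let F : ℕ → Lex (ℚ × Lex (ℕᵒᵈ →₀ ℤ)) := fun x => toLex (g (Rr x), toLex (h.coord x))
  have hF : ∀ x y, κ x < κ y → F x < F y := by
    intro x y hxy
    rcases lt_or_eq_of_le (h.rho_mono hxy.le) with h1 | h1
    · apply Prod.Lex.toLex_lt_toLex.mpr
      left
      exact g.lt_iff_lt.mpr h1
    · apply Prod.Lex.toLex_lt_toLex.mpr
      right
      have h2 : h.rho x = h.rho y := h.inj h1
      refine ⟨?_, h.coord_lt hxy h2⟩
      have : Rr x = Rr y := Blk.ext' h2
      change g (Rr x) = g (Rr y)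
      rw [this]
  have hF' : ∀ x y, F x < F y → κ x < κ y := by
    intro x y hxy
    rcases lt_trichotomy (κ x) (κ y) with h1 | h1 | h1
    · exact h1
    · rw [h.inj h1] at hxy; exact absurd hxy (lt_irrefl _)
    · exact absurd (hF y x h1) (not_lt.mpr hxy.le)
  have hinj : Function.Injective F := by
    intro x y hxy
    rcases lt_trichotomy (κ x) (κ y) with h1 | h1 | h1
    · exact absurd (hF x y h1) (by rw [hxy]; exact lt_irrefl _)
    · exact h.inj h1
    · exact absurd (hF y x h1) (by rw [hxy]; exact lt_irrefl _)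
  have hsurj : Function.Surjective F := by
    intro p
    obtain ⟨x, h1, h2⟩ := h.exists_of_coord (g.symm (ofLex p).1).1 (g.symm (ofLex p).1).2
      (ofLex (ofLex p).2)
    refine ⟨x, ?_⟩
    have h3 : Rr x = g.symm (ofLex p).1 := Blk.ext' h1
    change toLex (g (Rr x), toLex (h.coord x)) = p
    rw [h3, h2]
    simp
  exact ⟨Equiv.ofBijective F ⟨hinj, hsurj⟩, fun a b => ⟨hF a b, hF' a b⟩⟩

/-- Densely ordered sets meet each class at most once. -/
theorem rho_injOn (h : Tower κ T π c) (S : Set ℕ)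
    (hS : ∀ a ∈ S, ∀ b ∈ S, κ a < κ b → ∃ d ∈ S, κ a < κ d ∧ κ d < κ b) :
    Set.InjOn h.rho S := by
  have key : ∀ n, ∀ x ∈ S, ∀ y ∈ S, κ x < κ y → xs π x n ≠ xs π y n := by
    intro n
    induction n with
    | zero =>
      intro x _ y _ hxy he
      have : x = y := he
      rw [this] at hxy
      exact lt_irrefl _ hxy
    | succ n ih =>
      intro x hx y hy hxy he
      have hfin := (h.fib n).fin _ (h.xs_mem x n) _ (h.xs_mem y n) he
      have hinf : {u | u ∈ S ∧ κ x < κ u ∧ κ u < κ y}.Infinite := by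
        intro hf
        obtain ⟨d, hd, h1, h2⟩ := hS x hx y hy hxy
        obtain ⟨u, ⟨hu1, hu2, hu3⟩, hu⟩ := Set.exists_max_image _ κ hf ⟨d, hd, h1, h2⟩
        obtain ⟨d', hd', h3, h4⟩ := hS u hu1 y hy hu3
        exact absurd (hu d' ⟨hd', hu2.trans h3, h4⟩) (not_le.mpr h3)
      apply hinf
      refine Set.Finite.of_injOn (f := fun u => xs π u n)
        (t := gap κ (T n) (xs π x n) (xs π y n) ∪ {xs π x n} ∪ {xs π y n}) ?_ ?_
        ((hfin.union (Set.finite_singleton _)).union (Set.finite_singleton _))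
      · rintro u ⟨hu1, hu2, hu3⟩
        have h1 := h.xs_mono hu2.le n
        have h2 := h.xs_mono hu3.le n
        rcases lt_or_eq_of_le h1 with h3 | h3
        · rcases lt_or_eq_of_le h2 with h4 | h4
          · exact Or.inl (Or.inl ⟨h.xs_mem u n, h3, h4⟩)
          · exact Or.inr (h.inj h4)
        · exact Or.inl (Or.inr (h.inj h3).symm)
      · rintro u ⟨hu1, _, _⟩ w ⟨hw1, _, _⟩ huw
        rcases lt_trichotomy (κ u) (κ w) with h1 | h1 | h1
        · exact absurd huw (ih u hu1 w hw1 h1)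
        · exact h.inj h1
        · exact absurd huw.symm (ih w hw1 u hu1 h1)
  intro x hx y hy hxy
  obtain ⟨N, hN⟩ := h.rho_eq_two x y
  have he : xs π x N = xs π y N := by rw [(hN N le_rfl).1, (hN N le_rfl).2, hxy]
  rcases lt_trichotomy (κ x) (κ y) with h1 | h1 | h1
  · exact absurd he (key N x hx y hy h1)
  · exact h.inj h1
  · exact absurd he.symm (key N y hy x hx h1)

end Tower

end Pool.Agent.LibZetaOmega
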