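import Mathlib

set_option autoImplicit false

namespace Pool.Agent.LibZetaOmega

open Nat.Partrec (Code)

/-- Bounded enumeration. -/
def tr (b : ℕ) (V : List ℕ) (e : ℕ) : Prop :=
  ∃ y, y < b ∧ ∃ z ∈ V,
    Code.evaln b (Denumerable.ofNat Code e.unpair.1) (Nat.pair e.unpair.2 y) = some z

instance (b : ℕ) (V : List ℕ) (e : ℕ) : Decidable (tr b V e) := by
  unfold tr; infer_instance

theorem tr_mono {b b' : ℕ} {V V' : List ℕ} {e : ℕ} (hb : b ≤ b') (hV : ∀ z ∈ V, z ∈ V')
    (h : tr b V e) : tr b' V' e := by
  obtain ⟨y, hy, z, hz, h1⟩ := h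
  exact ⟨y, lt_of_lt_of_le hy hb, z, hV z hz, Nat.Partrec.Code.evaln_mono hb h1⟩

/-- An item `j` is not injured when the current item has index `b` and information `V`. -/
def safe (b : ℕ) (V : List ℕ) (j : ℕ × List ℕ) : Bool :=
  decide (∀ e ∈ j.2, ¬ tr b V e)

/-- The passage from one level to the next. -/
def F (n : ℕ) : List (ℕ × List ℕ) → List (ℕ × List ℕ)
  | [] => []
  | (c, V) :: L =>
    if L.length ≤ n ∨ L.length % 2 = 0 then
      (c, (List.range (((F n L).drop ((F n L).findIdx (safe L.length V))).length - n)).filter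
        (fun e => decide (¬ tr L.length V e))) ::
        ((F n L).drop ((F n L).findIdx (safe L.length V)))
    else F n L

/-- The levels. -/
def lev : ℕ → ℕ → List (ℕ × List ℕ)
  | 0, s => (List.range (s + 1)).reverse.map (fun t => (t, List.range (t + 1)))
  | n + 1, s => F n (lev n s)

/-- Ages of the items in a list. -/
def ages (L : List (ℕ × List ℕ)) : List ℕ := L.map Prod.fst

theorem ages_append (L M : List (ℕ × List ℕ)) : ages (L ++ M) = ages L ++ ages M :=
  List.map_append

theorem F_cons_pos (n c : ℕ) (V : List ℕ) (L : List (ℕ × List ℕ))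
    (h : L.length ≤ n ∨ L.length % 2 = 0) : ∃ W G, F n ((c, V) :: L) = (c, W) :: G ∧
      G <:+ F n L ∧ W = (List.range (G.length - n)).filter (fun e => decide (¬ tr L.length V e)) ∧
      G = (F n L).drop ((F n L).findIdx (safe L.length V)) := by
  refine ⟨_, _, ?_, ?_, rfl, rfl⟩
  · rw [F, if_pos h]
  · exact List.drop_suffix _ _

theorem F_cons_neg (n c : ℕ) (V : List ℕ) (L : List (ℕ × List ℕ))
    (h : ¬ (L.length ≤ n ∨ L.length % 2 = 0)) : F n ((c, V) :: L) = F n L := by
  rw [F, if_neg h]

theorem F_sublist (n : ℕ) (L : List (ℕ × List ℕ)) : (ages (F n L)).Sublist (ages L) := by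
  induction L with
  | nil => simp [F, ages]
  | cons i L ih =>
    obtain ⟨c, V⟩ := i
    by_cases h : L.length ≤ n ∨ L.length % 2 = 0
    · obtain ⟨W, G, h1, h2, -, -⟩ := F_cons_pos n c V L h
      rw [h1]
      change (c :: ages G).Sublist (c :: ages L)
      apply List.Sublist.cons_cons
      exact ((h2.sublist).map _).trans ih
    · rw [F_cons_neg n c V L h]
      exact ih.cons _

theorem lev_sublist (n s : ℕ) : (ages (lev n s)).Sublist (List.range (s + 1)).reverse := by
  induction n with
  | zero =>
    rw [lev, ages, List.map_map]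
    have : (Prod.fst ∘ fun t : ℕ => (t, List.range (t + 1))) = id := rfl
    rw [this, List.map_id]
  | succ n ih => exact (F_sublist n _).trans ih

theorem lev_sorted (n s : ℕ) : (ages (lev n s)).Pairwise (· > ·) := by
  refine List.Pairwise.sublist (lev_sublist n s) ?_
  rw [List.pairwise_reverse]
  exact List.pairwise_lt_range

theorem lev_nodup (n s : ℕ) : (ages (lev n s)).Nodup :=
  (lev_sorted n s).imp (fun h => ne_of_gt h)

theorem mem_lev_le {n s t : ℕ} (h : t ∈ ages (lev n s)) : t ≤ s := by
  have := (lev_sublist n s).subset h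
  simp at this
  omega

theorem mem_ages_F {n c : ℕ} {L : List (ℕ × List ℕ)} (h : c ∈ ages (F n L)) : c ∈ ages L :=
  (F_sublist n L).subset h

/-- Coherence for one application of `F`. -/
theorem F_coh (n c : ℕ) (V : List ℕ) (L' : List (ℕ × List ℕ)) :
    ∀ P : List (ℕ × List ℕ), (ages (P ++ (c, V) :: L')).Nodup →
      c ∈ ages (F n (P ++ (c, V) :: L')) →
      ∃ P', F n (P ++ (c, V) :: L') = P' ++ F n ((c, V) :: L') ∧
        ∃ W R, F n ((c, V) :: L') = (c, W) :: R := by
  intro P
  induction P with
  | nil =>
    intro hnd hc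
    refine ⟨[], rfl, ?_⟩
    simp only [List.nil_append] at hnd hc
    by_cases h : L'.length ≤ n ∨ L'.length % 2 = 0
    · obtain ⟨W, G, h1, -⟩ := F_cons_pos n c V L' h
      exact ⟨W, G, h1⟩
    · rw [F_cons_neg n c V L' h] at hc
      have := mem_ages_F hc
      simp only [ages, List.map_cons, List.nodup_cons] at hnd
      exact absurd this hnd.1
  | cons i P ih =>
    obtain ⟨d, U⟩ := i
    intro hnd hc
    have hnd' : (ages (P ++ (c, V) :: L')).Nodup := by
      simp only [List.cons_append, ages, List.map_cons, List.nodup_cons] at hnd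
      exact hnd.2
    have hcd : c ≠ d := by
      rintro rfl
      simp only [List.cons_append, ages, List.map_cons, List.nodup_cons] at hnd
      exact hnd.1 (by simp)
    rw [List.cons_append] at hc ⊢
    by_cases h : (P ++ (c, V) :: L').length ≤ n ∨ (P ++ (c, V) :: L').length % 2 = 0
    · obtain ⟨W, G, h1, h2, -, -⟩ := F_cons_pos n d U (P ++ (c, V) :: L') h
      rw [h1] at hc ⊢
      have hcG : c ∈ ages G := by
        simp only [ages, List.map_cons, List.mem_cons] at hc
        rcases hc with hc | hc
        · exact absurd hc hcd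
        · exact hc
      have hcF : c ∈ ages (F n (P ++ (c, V) :: L')) := (h2.sublist.map _).subset hcG
      obtain ⟨P', h3, W', R, h4⟩ := ih hnd' hcF
      have hndF : (ages (F n (P ++ (c, V) :: L'))).Nodup := hnd'.sublist (F_sublist _ _)
      -- compare the two suffixes
      rw [h3] at h2 hndF
      obtain ⟨A, hA⟩ := h2
      -- A ++ G = P' ++ F n (..)
      have hcase := List.append_eq_append_iff.mp hA
      rcases hcase with ⟨B, hB1, hB2⟩ | ⟨B, hB1, hB2⟩
      · -- P' = A ++ B, G = B ++ F
        refine ⟨(d, W) :: B, ?_, W', R, h4⟩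
        rw [hB2]; rfl
      · -- A = P' ++ B, F = B ++ G
        cases B with
        | nil =>
          refine ⟨[(d, W)], ?_, W', R, h4⟩
          simp only [List.nil_append] at hB2
          rw [hB2]; rfl
        | cons b B =>
          exfalso
          rw [h4, List.cons_append, List.cons.injEq] at hB2
          rw [h4] at hndF
          rw [ages_append, List.nodup_append] at hndF
          have h5 := hndF.2.1
          simp only [ages, List.map_cons, List.nodup_cons] at h5
          apply h5.1
          rw [hB2.2, List.map_append, List.mem_append]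
          exact Or.inr hcG
    · rw [F_cons_neg n d U _ h] at hc ⊢
      exact ih hnd' hc

/-- Elements not in the new part are already in the old value of `F`. -/
theorem F_club (n c : ℕ) (L2 : List (ℕ × List ℕ)) :
    ∀ P : List (ℕ × List ℕ), c ∈ ages (F n (P ++ L2)) → c ∉ ages P → c ∈ ages (F n L2) := by
  intro P
  induction P with
  | nil => intro h _; exact h
  | cons i P ih =>
    obtain ⟨d, U⟩ := i
    intro hc hcP
    simp only [ages, List.map_cons, List.mem_cons, not_or] at hcP
    rw [List.cons_append] at hc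
    by_cases h : (P ++ L2).length ≤ n ∨ (P ++ L2).length % 2 = 0
    · obtain ⟨W, G, h1, h2, -, -⟩ := F_cons_pos n d U (P ++ L2) h
      rw [h1] at hc
      simp only [ages, List.map_cons, List.mem_cons] at hc
      rcases hc with hc | hc
      · exact absurd hc hcP.1
      · exact ih ((h2.sublist.map _).subset hc) hcP.2
    · rw [F_cons_neg n d U _ h] at hc
      exact ih hc hcP.2

/-- Coherence of the levels. -/
theorem lev_coh (n : ℕ) : ∀ s t : ℕ, t ∈ ages (lev n s) →
    ∃ P, lev n s = P ++ lev n t ∧ ∃ W R, lev n t = (t, W) :: R := by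
  induction n with
  | zero =>
    intro s t ht
    have hts := mem_lev_le ht
    refine ⟨((List.range' (t + 1) (s - t)).reverse.map (fun t => (t, List.range (t + 1)))),
      ?_, List.range (t + 1), ((List.range t).reverse.map (fun t => (t, List.range (t + 1)))), ?_⟩
    · rw [lev, lev, ← List.map_append, ← List.reverse_append]
      congr 2
      rw [List.range_eq_range', List.range_eq_range']
      have : s + 1 = (t + 1) + (s - t) := by omega
      rw [this, ← List.range'_append]
      simp
    · rw [lev, List.range_succ]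
      simp [List.range_succ]
  | succ n ih =>
    intro s t ht
    have ht' : t ∈ ages (lev n s) := mem_ages_F ht
    obtain ⟨P, hP, W, R, hR⟩ := ih s t ht'
    have hnd := lev_nodup n s
    have ht2 := ht
    rw [lev, hP, hR] at ht2
    rw [hP, hR] at hnd
    obtain ⟨P', h1, W', R', h2⟩ := F_coh n t W R P hnd ht2
    refine ⟨P', ?_, W', R', ?_⟩
    · rw [lev, hP, hR, h1]
      congr 1
      rw [lev, hR]
    · rw [lev, hR, h2]

theorem lev_coh' {n s t : ℕ} (ht : t ∈ ages (lev n s)) :
    ∃ P, lev n s = P ++ lev n t ∧ (∀ u ∈ ages P, t < u) ∧ t ∈ ages (lev n t) := by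
  obtain ⟨P, h1, W, R, h2⟩ := lev_coh n s t ht
  refine ⟨P, h1, ?_, by rw [h2]; simp [ages]⟩
  have h3 := lev_sorted n s
  rw [h1, ages_append, List.pairwise_append] at h3
  intro u hu
  exact h3.2.2 u hu t (by rw [h2]; simp [ages])

theorem lev_club {n s u t : ℕ} (hu : u ∈ ages (lev n s)) (ht : t ∈ ages (lev (n + 1) s))
    (htu : t ≤ u) : t ∈ ages (lev (n + 1) u) := by
  obtain ⟨P, h1, h2, _⟩ := lev_coh' hu
  rw [lev, h1] at ht
  rw [lev]
  exact F_club n t _ P ht (fun hc => absurd (h2 t hc) (not_lt.mpr htu))

/-- Bound on the information of the items. -/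
def VB (n : ℕ) : List (ℕ × List ℕ) → Prop
  | [] => True
  | (_, V) :: R => (∀ e ∈ V, e + n < R.length) ∧ VB n R

theorem VB_append {n : ℕ} : ∀ {P R : List (ℕ × List ℕ)}, VB n (P ++ R) → VB n R := by
  intro P
  induction P with
  | nil => intro R h; exact h
  | cons i P ih => intro R h; exact ih h.2

theorem VB_suffix {n : ℕ} {G L : List (ℕ × List ℕ)} (h : G <:+ L) (hL : VB n L) : VB n G := by
  obtain ⟨P, rfl⟩ := h
  exact VB_append hL

theorem VB_mem {n : ℕ} : ∀ {L : List (ℕ × List ℕ)}, VB n L → ∀ j ∈ L, ∀ e ∈ j.2,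
    e + n < L.length := by
  intro L
  induction L with
  | nil => intro _ j hj; simp at hj
  | cons i L ih =>
    intro h j hj e he
    rcases List.mem_cons.mp hj with rfl | hj
    · have := h.1 e he
      simp only [List.length_cons]; omega
    · have := ih h.2 j hj e he
      simp only [List.length_cons]; omega

theorem F_VB (n : ℕ) (L : List (ℕ × List ℕ)) : VB n (F n L) := by
  induction L with
  | nil => simp [F, VB]
  | cons i L ih =>
    obtain ⟨c, V⟩ := i
    by_cases h : L.length ≤ n ∨ L.length % 2 = 0
    · obtain ⟨W, G, h1, h2, h3, -⟩ := F_cons_pos n c V L h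
      rw [h1]
      refine ⟨?_, VB_suffix h2 ih⟩
      intro e he
      rw [h3, List.mem_filter, List.mem_range] at he
      omega
    · rw [F_cons_neg n c V L h]
      exact ih

/-- Nestedness of the information. -/
def NV : List (ℕ × List ℕ) → Prop
  | [] => True
  | (_, V) :: R => (∀ j ∈ R, ∀ e ∈ j.2, e ∈ V) ∧ NV R

theorem NV_append : ∀ {P R : List (ℕ × List ℕ)}, NV (P ++ R) → NV R := by
  intro P
  induction P with
  | nil => intro R h; exact h
  | cons i P ih => intro R h; exact ih h.2

theorem NV_suffix {G L : List (ℕ × List ℕ)} (h : G <:+ L) (hL : NV L) : NV G := by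
  obtain ⟨P, rfl⟩ := h
  exact NV_append hL

/-- The surviving part consists of safe items. -/
theorem drop_safe {b : ℕ} {V : List ℕ} {L : List (ℕ × List ℕ)} (hN : NV L) :
    ∀ j ∈ L.drop (L.findIdx (safe b V)), safe b V j = true := by
  have hNd := NV_suffix (List.drop_suffix (L.findIdx (safe b V)) L) hN
  by_cases hlt : L.findIdx (safe b V) < L.length
  · have hhead := List.findIdx_getElem (w := hlt)
    rw [List.drop_eq_getElem_cons hlt] at hNd ⊢
    intro j hj
    rcases List.mem_cons.mp hj with rfl | hj
    · exact hhead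
    · simp only [safe, decide_eq_true_eq] at hhead ⊢
      intro e he
      exact hhead e (hNd.1 j hj e he)
  · rw [List.drop_eq_nil_of_le (not_lt.mp hlt)]
    intro j hj
    simp at hj

theorem F_NV (n : ℕ) (L : List (ℕ × List ℕ)) : NV (F n L) := by
  induction L with
  | nil => simp [F, NV]
  | cons i L ih =>
    obtain ⟨c, V⟩ := i
    by_cases h : L.length ≤ n ∨ L.length % 2 = 0
    · obtain ⟨W, G, h1, h2, h3, h4⟩ := F_cons_pos n c V L h
      rw [h1]
      refine ⟨?_, NV_suffix h2 ih⟩
      intro j hj e he
      have hVB : VB n G := VB_suffix h2 (F_VB n L)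
      have h5 := VB_mem hVB j hj e he
      have h6 := drop_safe (b := L.length) (V := V) ih j (h4 ▸ hj)
      simp only [safe, decide_eq_true_eq] at h6
      rw [h3, List.mem_filter, List.mem_range]
      exact ⟨by omega, by simpa using h6 e he⟩
    · rw [F_cons_neg n c V L h]
      exact ih

theorem lev_NV (n s : ℕ) : NV (lev n s) := by
  cases n with
  | zero =>
    induction s with
    | zero => simp [lev, NV]
    | succ s ih =>
      have : lev 0 (s + 1) = (s + 1, List.range (s + 2)) :: lev 0 s := by
        rw [lev, List.range_succ]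
        simp [lev, List.range_succ]
      rw [this]
      refine ⟨?_, ih⟩
      intro j hj e he
      simp only [lev, List.mem_map, List.mem_reverse, List.mem_range] at hj
      obtain ⟨t, ht, rfl⟩ := hj
      simp only [List.mem_range] at he ⊢
      omega
  | succ n => exact F_NV n _

/-- An item that is never injured survives. -/
theorem F_survive (n : ℕ) (j : ℕ × List ℕ) (R : List (ℕ × List ℕ)) (L2 : List (ℕ × List ℕ))
    (h2 : ∃ Q, F n L2 = Q ++ j :: R) :
    ∀ P : List (ℕ × List ℕ),
      (∀ P1 c V P2, P = P1 ++ (c, V) :: P2 → safe (P2 ++ L2).length V j = true) →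
      ∃ Q, F n (P ++ L2) = Q ++ j :: R := by
  intro P
  induction P with
  | nil => intro _; exact h2
  | cons i P ih =>
    obtain ⟨c, V⟩ := i
    intro hP
    obtain ⟨Q, hQ⟩ := ih (fun P1 c' V' P2 he => hP ((c, V) :: P1) c' V' P2 (by rw [he]; rfl))
    rw [List.cons_append]
    by_cases h : (P ++ L2).length ≤ n ∨ (P ++ L2).length % 2 = 0
    · obtain ⟨W, G, h3, h4, -, h6⟩ := F_cons_pos n c V (P ++ L2) h
      have hs := hP [] c V P rfl
      rw [h3]
      have hle : (F n (P ++ L2)).findIdx (safe (P ++ L2).length V) ≤ Q.length := by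
        by_contra hcon
        push Not at hcon
        have h7 := List.not_of_lt_findIdx hcon
        have h8 : (F n (P ++ L2))[Q.length]'(by rw [hQ]; simp) = j := by
          simp [hQ]
        rw [h8, hs] at h7
        simp at h7
      refine ⟨(c, W) :: Q.drop ((F n (P ++ L2)).findIdx (safe (P ++ L2).length V)), ?_⟩
      rw [h6, List.cons_append]
      congr 1
      generalize (F n (P ++ L2)).findIdx (safe (P ++ L2).length V) = k at hle
      rw [hQ, List.drop_append_of_le_length hle]
    · rw [F_cons_neg n c V _ h]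
      exact ⟨Q, hQ⟩

end Pool.Agent.LibZetaOmega
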