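import Mathlib
import Pool.Agent.LibZetaOmega.Chain

set_option autoImplicit false

namespace Pool.Agent.LibZetaOmega

open Nat.Partrec (Code)

/-- The true stages. -/
def T : ℕ → Set ℕ
  | 0 => Set.univ
  | n + 1 => {t | t ∈ T n ∧ ∀ z ∈ T n, t ≤ z → t ∈ ages (lev (n + 1) z)}

theorem T_sub (n : ℕ) : T (n + 1) ⊆ T n := fun _ h => h.1

theorem T_anti : Antitone T := antitone_nat_of_succ_le T_sub

theorem mem_lev_zero {s t : ℕ} : t ∈ ages (lev 0 s) ↔ t ≤ s := by
  rw [lev, ages, List.map_map]
  have : (Prod.fst ∘ fun t : ℕ => (t, List.range (t + 1))) = id := rfl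
  rw [this, List.map_id, List.mem_reverse, List.mem_range]
  omega

theorem T_self {n z : ℕ} (hz : z ∈ T n) : z ∈ ages (lev n z) := by
  cases n with
  | zero => exact mem_lev_zero.mpr le_rfl
  | succ n => exact hz.2 z hz.1 le_rfl

theorem T_lev (n : ℕ) : ∀ z ∈ T n, ∀ t, t ∈ ages (lev n z) ↔ t ∈ T n ∧ t ≤ z := by
  induction n with
  | zero =>
    intro z _ t
    rw [mem_lev_zero]
    exact ⟨fun h => ⟨trivial, h⟩, fun h => h.2⟩
  | succ n ih =>
    intro z hz t
    constructor
    · intro ht
      refine ⟨⟨((ih z hz.1 t).mp (mem_ages_F ht)).1, ?_⟩, mem_lev_le ht⟩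
      intro u hu htu
      rcases le_total u z with huz | huz
      · exact lev_club ((ih z hz.1 u).mpr ⟨hu, huz⟩) ht htu
      · obtain ⟨P, hP, -, -⟩ := lev_coh' (hz.2 u hu huz)
        rw [hP, ages_append, List.mem_append]
        exact Or.inr ht
    · rintro ⟨ht, htz⟩
      exact ht.2 z hz.1 htz

/-- The information of the head item. -/
def vv (n z : ℕ) : List ℕ :=
  match lev n z with
  | [] => []
  | i :: _ => i.2

/-- The index of the head item. -/
def ix (n z : ℕ) : ℕ := (lev n z).tail.length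

theorem lev_eq {n z : ℕ} (hz : z ∈ ages (lev n z)) : lev n z = (z, vv n z) :: (lev n z).tail := by
  obtain ⟨P, _, W, R, h⟩ := lev_coh n z z hz
  rw [vv, h]
  rfl

theorem lev_eq_T {n z : ℕ} (hz : z ∈ T n) : lev n z = (z, vv n z) :: (lev n z).tail :=
  lev_eq (T_self hz)

theorem lev_length {n z : ℕ} (hz : z ∈ ages (lev n z)) : (lev n z).length = ix n z + 1 := by
  rw [ix, lev_eq hz]; simp

theorem append_cons_unique {a : ℕ} {W W' : List ℕ} :
    ∀ {P P' : List (ℕ × List ℕ)} {R R' : List (ℕ × List ℕ)},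
    P ++ (a, W) :: R = P' ++ (a, W') :: R' → (ages (P ++ (a, W) :: R)).Nodup →
    P = P' ∧ W = W' ∧ R = R' := by
  intro P
  induction P with
  | nil =>
    intro P' R R' h hnd
    cases P' with
    | nil => simp at h; exact ⟨rfl, h.1, h.2⟩
    | cons i P' =>
      exfalso
      simp only [List.nil_append, List.cons_append, List.cons.injEq] at h
      simp only [List.nil_append, ages, List.map_cons, List.nodup_cons] at hnd
      apply hnd.1
      rw [h.2]
      simp
  | cons i P ih =>
    intro P' R R' h hnd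
    cases P' with
    | nil =>
      exfalso
      simp only [List.nil_append, List.cons_append, List.cons.injEq] at h
      simp only [List.cons_append, ages, List.map_cons, List.nodup_cons] at hnd
      apply hnd.1
      rw [h.1]
      simp
    | cons i' P' =>
      simp only [List.cons_append, List.cons.injEq] at h
      simp only [List.cons_append, ages, List.map_cons, List.nodup_cons] at hnd
      obtain ⟨h1, h2, h3⟩ := ih h.2 hnd.2
      exact ⟨by rw [h.1, h1], h2, h3⟩

/-- Every item occurring in `lev n s` is the head item of its own level list. -/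
theorem lev_split {n s a : ℕ} {W : List ℕ} {P R : List (ℕ × List ℕ)}
    (h : lev n s = P ++ (a, W) :: R) : lev n a = (a, W) :: R ∧ a ∈ ages (lev n s) := by
  have ha : a ∈ ages (lev n s) := by rw [h, ages_append]; simp [ages]
  obtain ⟨P', h1, W', R', h2⟩ := lev_coh n s a ha
  have hnd := lev_nodup n s
  rw [h] at hnd
  rw [h, h2] at h1
  obtain ⟨_, h3, h4⟩ := append_cons_unique h1 hnd
  rw [h2, ← h3, ← h4]
  exact ⟨rfl, ha⟩

/-- Truth approximation at stage `z`. -/
def Tz (n z e : ℕ) : Prop := tr (ix n z) (vv n z) e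

instance (n z e : ℕ) : Decidable (Tz n z e) := by
  unfold Tz; infer_instance

theorem lev_mono {n t z : ℕ} (ht : t ∈ T n) (hz : z ∈ T n) (htz : t ≤ z) :
    ix n t ≤ ix n z ∧ ∀ e ∈ vv n t, e ∈ vv n z := by
  rcases Nat.lt_or_eq_of_le htz with h1 | h1
  swap
  · rw [h1]; exact ⟨le_rfl, fun e he => he⟩
  obtain ⟨P, hP, -, -⟩ := lev_coh' (((T_lev n z hz t).mpr ⟨ht, htz⟩))
  have hl1 := lev_length (T_self ht)
  have hl2 := lev_length (T_self hz)
  have hlen : (lev n z).length = P.length + (lev n t).length := by rw [hP]; simp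
  refine ⟨by omega, ?_⟩
  intro e he
  cases P with
  | nil =>
    exfalso
    rw [List.nil_append, lev_eq_T hz, lev_eq_T ht] at hP
    simp at hP
    omega
  | cons i P =>
    have hNV := lev_NV n z
    rw [lev_eq_T hz] at hP hNV
    simp only [List.cons_append, List.cons.injEq] at hP
    refine hNV.1 (t, vv n t) ?_ e he
    rw [hP.2, lev_eq_T ht]
    simp

theorem Tz_mono {n t z e : ℕ} (ht : t ∈ T n) (hz : z ∈ T n) (htz : t ≤ z) (h : Tz n t e) :
    Tz n z e := tr_mono (lev_mono ht hz htz).1 (lev_mono ht hz htz).2 h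

/-- Promoted stages. -/
def prom (n z : ℕ) : Prop := ix n z ≤ n ∨ ix n z % 2 = 0

theorem lev_succ_prom {n z : ℕ} (hz : z ∈ ages (lev n z)) (hp : prom n z) :
    ∃ W G, lev (n + 1) z = (z, W) :: G ∧ G <:+ F n (lev n z).tail ∧
      W = (List.range (G.length - n)).filter (fun e => decide (¬ Tz n z e)) ∧
      G = (F n (lev n z).tail).drop
        ((F n (lev n z).tail).findIdx (safe (ix n z) (vv n z))) := by
  obtain ⟨W, G, h1, h2, h3, h4⟩ := F_cons_pos n z (vv n z) (lev n z).tail hp
  refine ⟨W, G, ?_, h2, ?_, h4⟩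
  · rw [lev, lev_eq hz]; exact h1
  · rw [h3]
    rfl

theorem lev_succ_not_prom {n z : ℕ} (hz : z ∈ ages (lev n z)) (hp : ¬ prom n z) :
    lev (n + 1) z = F n (lev n z).tail := by
  rw [lev, lev_eq hz]; exact F_cons_neg n z _ _ hp

theorem not_mem_of_not_prom {n z : ℕ} (hz : z ∈ ages (lev n z)) (hp : ¬ prom n z) :
    z ∉ ages (lev (n + 1) z) := by
  rw [lev_succ_not_prom hz hp]
  intro h
  have h1 := mem_ages_F h
  have h2 := lev_nodup n z
  rw [lev_eq hz] at h2
  simp only [ages, List.map_cons, List.nodup_cons] at h2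
  exact h2.1 h1

theorem next_T {n : ℕ} (hinf : (T n).Infinite) {z : ℕ} (hz : z ∈ T n) :
    ∃ z' ∈ T n, z < z' ∧ (lev n z').tail = lev n z := by
  classical
  have hex : ∃ s, s ∈ T n ∧ z < s := by
    obtain ⟨s, hs, hxs⟩ := hinf.exists_gt z
    exact ⟨s, hs, hxs⟩
  obtain ⟨z', ⟨hz'T, hzz'⟩, hmin⟩ : ∃ z', (z' ∈ T n ∧ z < z') ∧
      ∀ t, t ∈ T n → z < t → z' ≤ t :=
    ⟨Nat.find hex, Nat.find_spec hex, fun t h1 h2 => Nat.find_min' hex ⟨h1, h2⟩⟩
  refine ⟨z', hz'T, hzz', ?_⟩
  obtain ⟨P, hP, hPz, -⟩ := lev_coh' ((T_lev n z' hz'T z).mpr ⟨hz, hzz'.le⟩)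
  have hPall : ∀ u ∈ ages P, u = z' := by
    intro u hu
    have h1 : u ∈ ages (lev n z') := by rw [hP, ages_append]; simp [hu]
    have h2 := (T_lev n z' hz'T u).mp h1
    exact le_antisymm h2.2 (hmin u h2.1 (hPz u hu))
  have hnd := lev_nodup n z'
  rw [hP, ages_append, List.nodup_append] at hnd
  match P, hP, hPall, hnd with
  | [], hP, _, _ =>
    exfalso
    rw [List.nil_append, lev_eq_T hz'T, lev_eq_T hz] at hP
    simp at hP
    omega
  | [i], hP, _, _ =>
    rw [hP]; rfl
  | i :: j :: P, hP, hPall, hnd =>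
    exfalso
    have h1 := hPall i.1 (by simp [ages])
    have h2 := hPall j.1 (by simp [ages])
    have h3 := hnd.1
    simp only [ages, List.map_cons, List.nodup_cons] at h3
    apply h3.1
    rw [h1, h2]
    simp

theorem exists_prom {n : ℕ} (hinf : (T n).Infinite) (N : ℕ) : ∃ z ∈ T n, N < z ∧ prom n z := by
  obtain ⟨z, hz, hNz⟩ := hinf.exists_gt N
  by_cases hp : prom n z
  · exact ⟨z, hz, hNz, hp⟩
  · obtain ⟨z', hz', hzz', htail⟩ := next_T hinf hz
    refine ⟨z', hz', hNz.trans hzz', Or.inr ?_⟩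
    rw [ix, htail, lev_length (T_self hz)]
    simp only [prom, not_or] at hp
    omega

theorem exists_settled {n : ℕ} (hne : (T n).Nonempty) (K : ℕ) :
    ∃ z1 ∈ T n, ∀ z ∈ T n, ∀ e, e < K → Tz n z e → Tz n z1 e := by
  induction K with
  | zero =>
    obtain ⟨z, hz⟩ := hne
    exact ⟨z, hz, fun _ _ e he => absurd he (Nat.not_lt_zero e)⟩
  | succ K ih =>
    obtain ⟨z1, hz1, h1⟩ := ih
    by_cases hK : ∃ z ∈ T n, Tz n z K
    · obtain ⟨z2, hz2, h2⟩ := hK
      rcases le_total z1 z2 with h12 | h12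
      · refine ⟨z2, hz2, fun z hz e he h => ?_⟩
        rcases Nat.lt_or_eq_of_le (Nat.le_of_lt_succ he) with h3 | h3
        · exact Tz_mono hz1 hz2 h12 (h1 z hz e h3 h)
        · rw [h3]; exact h2
      · refine ⟨z1, hz1, fun z hz e he h => ?_⟩
        rcases Nat.lt_or_eq_of_le (Nat.le_of_lt_succ he) with h3 | h3
        · exact h1 z hz e h3 h
        · rw [h3]; exact Tz_mono hz2 hz1 h12 h2
    · refine ⟨z1, hz1, fun z hz e he h => ?_⟩
      rcases Nat.lt_or_eq_of_le (Nat.le_of_lt_succ he) with h3 | h3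
      · exact h1 z hz e h3 h
      · exact absurd ⟨z, hz, h3 ▸ h⟩ hK

theorem T_step {n : ℕ} (hinf : (T n).Infinite) {t : ℕ} (ht : t ∈ T (n + 1)) :
    ∃ a ∈ T (n + 1), t < a := by
  obtain ⟨z1, hz1T, hz1⟩ := exists_settled ⟨t, ht.1⟩ ((lev (n + 1) t).length - n)
  obtain ⟨z, hzT, hz, hprom⟩ := exists_prom hinf (max t z1)
  have htz : t < z := lt_of_le_of_lt (le_max_left _ _) hz
  have hz1z : z1 < z := lt_of_le_of_lt (le_max_right _ _) hz
  obtain ⟨W, G, hlev, hG1, hW, hG2⟩ := lev_succ_prom (T_self hzT) hprom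
  obtain ⟨P, hP, hPt, -⟩ := lev_coh' (ht.2 z hzT htz.le)
  have hPne : P ≠ [] := by
    rintro rfl
    rw [List.nil_append, hlev, lev_eq_T ht] at hP
    simp at hP
    omega
  obtain ⟨P0, ⟨a, Va⟩, rfl⟩ := List.eq_nil_or_concat' P |>.resolve_left hPne
  have hta : t < a := hPt a (by simp [ages])
  have hP' : lev (n + 1) z = P0 ++ (a, Va) :: lev (n + 1) t := by rw [hP]; simp
  obtain ⟨hla, haz⟩ := lev_split hP'
  have hVB : ∀ e ∈ Va, e < (lev (n + 1) t).length - n := by
    have h1 : VB n (lev (n + 1) z) := F_VB n _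
    rw [hP'] at h1
    intro e he
    have := (VB_append h1).1 e he
    omega
  have hsafe : ∀ e ∈ Va, ¬ Tz n z e := by
    intro e he
    rw [hlev] at hP'
    cases P0 with
    | nil =>
      simp only [List.nil_append, List.cons.injEq, Prod.mk.injEq] at hP'
      rw [← hP'.1.2, hW, List.mem_filter] at he
      simpa using he.2
    | cons i P0 =>
      simp only [List.cons_append, List.cons.injEq] at hP'
      have h1 : (a, Va) ∈ G := by rw [hP'.2]; simp
      rw [hG2] at h1
      have h2 := drop_safe (F_NV n _) _ h1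
      simp only [safe, decide_eq_true_eq] at h2
      exact h2 e he
  refine ⟨a, ⟨((T_lev n z hzT a).mp (mem_ages_F haz)).1, ?_⟩, hta⟩
  intro u hu hau
  rcases le_total u z with huz | huz
  · exact lev_club ((T_lev n z hzT u).mpr ⟨hu, huz⟩) haz hau
  · obtain ⟨P', hP'', -, -⟩ := lev_coh' ((T_lev n u hu z).mpr ⟨hzT, huz⟩)
    obtain ⟨Q, hQ⟩ := F_survive n (a, Va) (lev (n + 1) t) (lev n z) ⟨P0, hP'⟩ P' (by
      intro P1 c V P2 he
      have h1 : lev n u = P1 ++ (c, V) :: (P2 ++ lev n z) := by rw [hP'', he]; simp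
      obtain ⟨h2, h3⟩ := lev_split h1
      have hcT := ((T_lev n u hu c).mp h3).1
      have h4 := lev_eq_T hcT
      rw [h2] at h4
      simp only [List.cons.injEq, Prod.mk.injEq, true_and] at h4
      have h5 : (P2 ++ lev n z).length = ix n c := by rw [ix, h2]; rfl
      rw [h5, h4.1]
      simp only [safe, decide_eq_true_eq]
      intro e he' hc
      exact hsafe e he' (Tz_mono hz1T hzT hz1z.le (hz1 c hcT e (hVB e he') hc)))
    rw [lev, hP'', hQ, ages_append]
    simp [ages]

/-- Low items have no information and keep their ages. -/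
theorem F_low (n : ℕ) : ∀ L : List (ℕ × List ℕ), L.length ≤ n + 1 →
    ages (F n L) = ages L ∧ ∀ j ∈ F n L, j.2 = [] := by
  intro L
  induction L with
  | nil => intro _; simp [F, ages]
  | cons i L ih =>
    obtain ⟨c, V⟩ := i
    intro hL
    simp only [List.length_cons] at hL
    obtain ⟨h1, h2⟩ := ih (by omega)
    obtain ⟨W, G, h3, h4, h5, h6⟩ := F_cons_pos n c V L (Or.inl (by omega))
    have h7 : G = F n L := by
      rw [h6]
      cases hF : F n L with
      | nil => simp
      | cons j R =>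
        have : j.2 = [] := h2 j (by rw [hF]; simp)
        rw [List.findIdx_cons]
        have hs : safe L.length V j = true := by
          simp [safe, this]
        rw [hs]
        simp
    have h8 : G.length = L.length := by
      have := congrArg List.length h1
      simp only [ages, List.length_map] at this
      rw [h7, this]
    rw [h3]
    refine ⟨?_, ?_⟩
    · change c :: ages G = c :: ages L
      rw [h7, h1]
    · intro j hj
      rcases List.mem_cons.mp hj with rfl | hj
      · have : G.length - n = 0 := by omega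
        simp [h5, this]
      · exact h2 j (h7 ▸ hj)

theorem low_T {n t : ℕ} (ht : t ∈ T n) (hlow : ix n t ≤ n) :
    t ∈ T (n + 1) ∧ ages (lev (n + 1) t) = ages (lev n t) := by
  have hlen : (lev n t).length ≤ n + 1 := by rw [lev_length (T_self ht)]; omega
  obtain ⟨h1, h2⟩ := F_low n (lev n t) hlen
  refine ⟨⟨ht, ?_⟩, h1⟩
  intro z hz htz
  obtain ⟨P, hP, -, -⟩ := lev_coh' ((T_lev n z hz t).mpr ⟨ht, htz⟩)
  have h3 : t ∈ ages (F n (lev n t)) := by rw [h1]; exact T_self ht
  rw [ages, List.mem_map] at h3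
  obtain ⟨j, hj, hjt⟩ := h3
  obtain ⟨Q, R, hQR⟩ := List.append_of_mem hj
  obtain ⟨Q', hQ'⟩ := F_survive n j R (lev n t) ⟨Q, hQR⟩ P (by
    intro P1 c V P2 _
    simp [safe, h2 j hj])
  rw [lev, hP, hQ', ages_append]
  simp [ages, hjt]

theorem zero_T (n : ℕ) : 0 ∈ T n ∧ ages (lev n 0) = [0] := by
  induction n with
  | zero => exact ⟨trivial, by simp [lev, ages]⟩
  | succ n ih =>
    have h1 : ix n 0 ≤ n := by
      have := congrArg List.length ih.2
      simp only [ages, List.length_map, List.length_singleton] at this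
      rw [ix, List.length_tail, this]; omega
    obtain ⟨h2, h3⟩ := low_T ih.1 h1
    exact ⟨h2, by rw [h3, ih.2]⟩

theorem T_infinite (n : ℕ) : (T n).Infinite := by
  induction n with
  | zero => exact Set.infinite_univ
  | succ n ih =>
    intro hfin
    obtain ⟨m, hm, hmax⟩ := Set.exists_max_image _ id hfin ⟨0, (zero_T (n + 1)).1⟩
    obtain ⟨a, ha, hma⟩ := T_step ih hm
    have := hmax a ha
    simp only [id] at this
    omega

/-- There is a true stage of every index. -/
theorem exists_ix (n i : ℕ) : ∃ t ∈ T n, ix n t = i := by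
  induction i with
  | zero =>
    refine ⟨0, (zero_T n).1, ?_⟩
    have := congrArg List.length (zero_T n).2
    simp only [ages, List.length_map, List.length_singleton] at this
    rw [ix, List.length_tail, this]
  | succ i ih =>
    obtain ⟨t, ht, hti⟩ := ih
    obtain ⟨t', ht', _, htail⟩ := next_T (T_infinite n) ht
    exact ⟨t', ht', by rw [ix, htail, lev_length (T_self ht), hti]⟩

theorem ix_lt {n t z : ℕ} (ht : t ∈ T n) (hz : z ∈ T n) (htz : t < z) : ix n t < ix n z := by
  obtain ⟨P, hP, -, -⟩ := lev_coh' (((T_lev n z hz t).mpr ⟨ht, htz.le⟩))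
  have hl1 := lev_length (T_self ht)
  have hl2 := lev_length (T_self hz)
  have hlen : (lev n z).length = P.length + (lev n t).length := by rw [hP]; simp
  cases P with
  | nil =>
    exfalso
    rw [List.nil_append, lev_eq_T hz, lev_eq_T ht] at hP
    simp at hP
    omega
  | cons i P =>
    simp only [List.length_cons] at hlen
    omega

theorem ix_le_self {n z : ℕ} (hz : z ∈ ages (lev n z)) : ix n z ≤ z := by
  have h1 := (lev_sublist n z).length_le
  simp only [ages, List.length_map, List.length_reverse, List.length_range] at h1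
  rw [lev_length hz] at h1
  omega

theorem exists_large {n : ℕ} (M N : ℕ) : ∃ u ∈ T n, N < u ∧ M < ix n u ∧ prom n u := by
  obtain ⟨t, ht, hti⟩ := exists_ix n (M + 1)
  obtain ⟨u, hu, h1, h2⟩ := exists_prom (T_infinite n) (max N t)
  refine ⟨u, hu, lt_of_le_of_lt (le_max_left _ _) h1, ?_, h2⟩
  have := ix_lt ht hu (lt_of_le_of_lt (le_max_right _ _) h1)
  omega

/-- Truth. -/
def Tr : ℕ → ℕ → Prop
  | 0, _ => False
  | n + 1, e => ∃ y z, z ∈ Code.eval (Denumerable.ofNat Code e.unpair.1)
      (Nat.pair e.unpair.2 y) ∧ ¬ Tr n z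

theorem vv_zero (z : ℕ) : vv 0 z = List.range (z + 1) := by
  rw [vv, lev, List.range_succ]
  simp [List.range_succ]

theorem truth (n : ℕ) : ∀ z ∈ T n, ∀ e, e ∈ vv n z ↔ e + n ≤ ix n z ∧ ¬ Tr n e := by
  induction n with
  | zero =>
    intro z hz e
    have h1 : ix 0 z = z := by
      rw [ix, lev]
      simp
    rw [vv_zero, h1]
    simp [Tr]
  | succ n ih =>
    intro z hz e
    have hzn : z ∈ T n := hz.1
    have hprom : prom n z := by
      by_contra hcon
      exact not_mem_of_not_prom (T_self hzn) hcon (T_self hz)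
    obtain ⟨W, G, hlev, hG1, hW, hG2⟩ := lev_succ_prom (T_self hzn) hprom
    have hvv : vv (n + 1) z = W := by rw [vv, hlev]
    have hix : ix (n + 1) z = G.length := by rw [ix, hlev]; rfl
    have hmem : e ∈ vv (n + 1) z ↔ e + (n + 1) ≤ ix (n + 1) z ∧ ¬ Tz n z e := by
      rw [hvv, hix, hW, List.mem_filter, List.mem_range]
      simp only [decide_eq_true_eq]
      constructor
      · rintro ⟨h1, h2⟩; exact ⟨by omega, h2⟩
      · rintro ⟨h1, h2⟩; exact ⟨by omega, h2⟩
    have hsound : Tz n z e → Tr (n + 1) e := by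
      rintro ⟨y, _, w, hw, h1⟩
      exact ⟨y, w, Nat.Partrec.Code.evaln_sound h1, ((ih z hzn w).mp hw).2⟩
    constructor
    · intro he
      refine ⟨(hmem.mp he).1, ?_⟩
      rintro ⟨y, w, hw, hTw⟩
      obtain ⟨k, hk⟩ := Nat.Partrec.Code.evaln_complete.mp hw
      obtain ⟨u, hu, hzu, hlarge, hpu⟩ := exists_large (n := n) (max (max y k) (w + n)) z
      have hTu : Tz n u e := by
        refine ⟨y, ?_, w, ?_, ?_⟩
        · exact lt_of_le_of_lt (le_trans (le_max_left _ _) (le_max_left _ _)) hlarge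
        · rw [ih u hu w]
          exact ⟨le_of_lt (lt_of_le_of_lt (le_max_right _ _) hlarge), hTw⟩
        · exact Nat.Partrec.Code.evaln_mono
            (le_of_lt (lt_of_le_of_lt (le_trans (le_max_right _ _) (le_max_left _ _)) hlarge)) hk
      obtain ⟨W', G', hlev', -, -, hG2'⟩ := lev_succ_prom (T_self hu) hpu
      obtain ⟨P, hP, -, -⟩ := lev_coh' (hz.2 u hu hzu.le)
      rw [hlev', lev_eq_T hz] at hP
      cases P with
      | nil =>
        simp only [List.nil_append, List.cons.injEq, Prod.mk.injEq] at hP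
        omega
      | cons i P =>
        simp only [List.cons_append, List.cons.injEq] at hP
        have h1 : (z, vv (n + 1) z) ∈ G' := by rw [hP.2]; simp
        rw [hG2'] at h1
        have h2 := drop_safe (F_NV n _) _ h1
        simp only [safe, decide_eq_true_eq] at h2
        exact h2 e he hTu
    · rintro ⟨h1, h2⟩
      exact hmem.mpr ⟨h1, fun h => h2 (hsound h)⟩

/-- At a true stage, true statements with small codes have witnesses. -/
theorem truth_witness {n z e : ℕ} (hz : z ∈ T (n + 1)) (he : e + (n + 1) ≤ ix (n + 1) z)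
    (hT : Tr (n + 1) e) : ∃ y, y < z ∧ ∃ w, ¬ Tr n w ∧
      w ∈ Code.eval (Denumerable.ofNat Code e.unpair.1) (Nat.pair e.unpair.2 y) := by
  have hzn : z ∈ T n := hz.1
  have hprom : prom n z := by
    by_contra hcon
    exact not_mem_of_not_prom (T_self hzn) hcon (T_self hz)
  obtain ⟨W, G, hlev, hG1, hW, hG2⟩ := lev_succ_prom (T_self hzn) hprom
  have hvv : vv (n + 1) z = W := by rw [vv, hlev]
  have hix : ix (n + 1) z = G.length := by rw [ix, hlev]; rfl
  have h1 : e ∉ vv (n + 1) z := fun h => ((truth (n + 1) z hz e).mp h).2 hT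
  rw [hvv, hW, List.mem_filter, List.mem_range] at h1
  simp only [decide_eq_true_eq, not_and, not_not] at h1
  obtain ⟨y, hy, w, hw, h2⟩ := h1 (by omega)
  exact ⟨y, lt_of_lt_of_le hy (ix_le_self (T_self hzn)), w, ((truth n z hzn w).mp hw).2,
    Nat.Partrec.Code.evaln_sound h2⟩

/-- The limit. -/
def Tw : Set ℕ := {t | ∀ n, t ∈ T n}

theorem low_stable {n t : ℕ} (ht : t ∈ T n) (hlow : ix n t ≤ n) (d : ℕ) :
    t ∈ T (n + d) ∧ ages (lev (n + d) t) = ages (lev n t) ∧ ix (n + d) t = ix n t := by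
  induction d with
  | zero => exact ⟨ht, rfl, rfl⟩
  | succ d ih =>
    obtain ⟨h1, h2, h3⟩ := ih
    obtain ⟨h4, h5⟩ := low_T h1 (by omega)
    refine ⟨h4, by rw [← add_assoc, h5, h2], ?_⟩
    have h6 := congrArg List.length h5
    simp only [ages, List.length_map] at h6
    rw [← add_assoc, ← h3, ix, ix, List.length_tail, List.length_tail, h6]

theorem low_Tw {n t : ℕ} (ht : t ∈ T n) (hlow : ix n t ≤ n) : t ∈ Tw := by
  intro m
  rcases le_total m n with h | h
  · exact T_anti h ht
  · obtain ⟨d, rfl⟩ := Nat.exists_eq_add_of_le h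
    exact (low_stable ht hlow d).1

end Pool.Agent.LibZetaOmega
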