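import Mathlib
import Pool.Agent.LibZetaOmega.True
import Pool.Agent.LibZetaOmega.Level

set_option autoImplicit false

namespace Pool.Agent.LibZetaOmega

/-- Strictly older elements of the level list. -/
def Dl (n s : ℕ) : List ℕ := (ages (lev n s)).filter (fun t => decide (t < s))

/-- Stopping condition. -/
def stopc (s n : ℕ) : Bool := decide (ix n s ≤ n ∨ ix n s % 2 = 1)

/-- The last relevant level of a stage. -/
def stop (s : ℕ) : ℕ := (List.range (s + 1)).findIdx (stopc s)

/-- Bookkeeping code. -/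
def code (s : ℕ) : ℕ := ix (stop s) s / 2

/-- The side of a stage. -/
def side (s : ℕ) : Bool := decide ((code s).unpair.2 % 2 = 1)

/-- The parent of a stage. -/
def par (s : ℕ) : ℕ := ((Dl (stop s + 1) s).reverse).getD (code s).unpair.1 0

/-- Elements at the upper level which are above. -/
def topA (O : List ℕ) (s : ℕ) : List ℕ :=
  (Dl (stop s + 1) s).filter
    (fun x => decide (O.idxOf x < O.idxOf (par s) ∨ (x = par s ∧ side s = true)))

/-- The elements of the segment. -/
def seg (O Dn A B : List ℕ) : List ℕ :=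
  Dn.filter (fun x => decide ((∀ a ∈ A, O.idxOf a ≤ O.idxOf x) ∧ ∀ b ∈ B, O.idxOf x ≤ O.idxOf b))

/-- The youngest element of a list. -/
def young (L : List ℕ) : ℕ := L.foldr max 0

/-- Cut of `Dn` at `v`. -/
def cut (O Dn : List ℕ) (v : ℕ) (r : Bool) : List ℕ :=
  Dn.filter (fun x => decide (O.idxOf x < O.idxOf v ∨ (x = v ∧ r = true)))

/-- Going down one level. -/
def nextA (O Dn Dn1 A : List ℕ) : List ℕ :=
  if Dn1.filter (fun x => decide (x ∉ A)) = [] then Dn else
  if A = [] then [] else
  cut O Dn (young (seg O Dn A (Dn1.filter (fun x => decide (x ∉ A)))))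
    (decide (young (seg O Dn A (Dn1.filter (fun x => decide (x ∉ A)))) ∈ A ∨
      (young (seg O Dn A (Dn1.filter (fun x => decide (x ∉ A)))) ∉
        Dn1.filter (fun x => decide (x ∉ A)) ∧
      side (young (seg O Dn A (Dn1.filter (fun x => decide (x ∉ A))))) = true)))

/-- The lower parts at all levels, from the top. -/
def AA (O : List ℕ) (s : ℕ) : ℕ → List ℕ
  | 0 => topA O s
  | i + 1 => nextA O (Dl (stop s - i) s) (Dl (stop s - i + 1) s) (AA O s i)

/-- Insertion of a new stage. -/
def ins (O : List ℕ) (s : ℕ) : List ℕ :=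
  O.take (O.findIdx (fun x => decide (x ∉ AA O s (stop s + 1)))) ++
    s :: O.drop (O.findIdx (fun x => decide (x ∉ AA O s (stop s + 1))))

/-- The order of the stages up to `s`. -/
def OO : ℕ → List ℕ
  | 0 => [0]
  | s + 1 => ins (OO s) (s + 1)

theorem ins_perm (O : List ℕ) (s : ℕ) : (ins O s).Perm (s :: O) := by
  rw [ins]
  refine List.perm_middle.trans ?_
  rw [List.take_append_drop]

theorem OO_perm (s : ℕ) : (OO s).Perm (List.range (s + 1)) := by
  induction s with
  | zero => simp [OO]
  | succ s ih =>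
    rw [OO]
    refine (ins_perm _ _).trans ?_
    refine ((List.Perm.cons _ ih).trans ?_)
    rw [List.range_succ (n := s + 1)]
    exact (List.perm_append_singleton _ _).symm

theorem mem_OO {s x : ℕ} : x ∈ OO s ↔ x ≤ s := by
  rw [(OO_perm s).mem_iff, List.mem_range]; omega

theorem OO_nodup (s : ℕ) : (OO s).Nodup := (OO_perm s).nodup_iff.mpr List.nodup_range

theorem idxOf_insert {O : List ℕ} {k a x : ℕ} (hk : k ≤ O.length) (ha : x ≠ a) :
    (O.take k ++ a :: O.drop k).idxOf x = if O.idxOf x < k then O.idxOf x else O.idxOf x + 1 := by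
  have h1 : O.idxOf x = if x ∈ O.take k then (O.take k).idxOf x else
      (O.drop k).idxOf x + (O.take k).length := by
    conv_lhs => rw [← List.take_append_drop k O]
    rw [List.idxOf_append]
  have hlen : (O.take k).length = k := by rw [List.length_take]; omega
  rw [List.idxOf_append, List.idxOf_cons_ne _ ha.symm, hlen]
  by_cases hxt : x ∈ O.take k
  · rw [if_pos hxt] at h1 ⊢
    have h2 : (O.take k).idxOf x < k := by
      have := List.idxOf_lt_length_of_mem hxt
      omega
    rw [if_pos (by omega), h1]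
  · rw [if_neg hxt] at h1 ⊢
    rw [if_neg (by omega)]
    omega

theorem idxOf_insert_self {O : List ℕ} {k a : ℕ} (hk : k ≤ O.length) (ha : a ∉ O) :
    (O.take k ++ a :: O.drop k).idxOf a = k := by
  have hlen : (O.take k).length = k := by rw [List.length_take]; omega
  rw [List.idxOf_append, if_neg (fun h => ha (List.mem_of_mem_take h)), List.idxOf_cons_self, hlen]
  omega

theorem idxOf_OO_succ {s x y : ℕ} (hx : x ≤ s) (hy : y ≤ s) :
    (OO (s + 1)).idxOf x < (OO (s + 1)).idxOf y ↔ (OO s).idxOf x < (OO s).idxOf y := by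
  rw [OO, ins]
  have hk := List.findIdx_le_length (xs := OO s)
    (p := fun x => decide (x ∉ AA (OO s) (s + 1) (stop (s + 1) + 1)))
  rw [idxOf_insert hk (by omega), idxOf_insert hk (by omega)]
  split_ifs <;> omega

theorem idxOf_OO {s t x y : ℕ} (hx : x ≤ s) (hy : y ≤ s) (hst : s ≤ t) :
    (OO t).idxOf x < (OO t).idxOf y ↔ (OO s).idxOf x < (OO s).idxOf y := by
  induction t with
  | zero =>
    have : s = 0 := by omega
    rw [this]
  | succ t ih =>
    rcases Nat.lt_or_eq_of_le hst with h | h
    · rw [idxOf_OO_succ (by omega) (by omega), ih (by omega)]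
    · rw [h]

/-- The order relation on stages. -/
def ltR (x y : ℕ) : Prop := (OO (max x y)).idxOf x < (OO (max x y)).idxOf y

theorem ltR_iff {s x y : ℕ} (hx : x ≤ s) (hy : y ≤ s) :
    ltR x y ↔ (OO s).idxOf x < (OO s).idxOf y := by
  rw [ltR, idxOf_OO (le_max_left x y) (le_max_right x y) (max_le hx hy)]

theorem ltR_irrefl (x : ℕ) : ¬ ltR x x := lt_irrefl _

theorem ltR_trans {x y z : ℕ} (h1 : ltR x y) (h2 : ltR y z) : ltR x z := by
  have hx : x ≤ x + y + z := by omega
  have hy : y ≤ x + y + z := by omega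
  have hz : z ≤ x + y + z := by omega
  rw [ltR_iff hx hy] at h1
  rw [ltR_iff hy hz] at h2
  rw [ltR_iff hx hz]
  exact h1.trans h2

theorem ltR_total (x y : ℕ) : ltR x y ∨ x = y ∨ ltR y x := by
  have hx : x ≤ x + y := by omega
  have hy : y ≤ x + y := by omega
  rw [ltR_iff hx hy, ltR_iff hy hx]
  rcases lt_trichotomy ((OO (x + y)).idxOf x) ((OO (x + y)).idxOf y) with h | h | h
  · exact Or.inl h
  · right; left
    exact (List.idxOf_inj (mem_OO.mpr hx)).mp h
  · exact Or.inr (Or.inr h)

/-- Type synonym carrying the new order. -/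
def RO : Type := ℕ

/-- The identity map into the synonym. -/
def toRO (x : ℕ) : RO := x

noncomputable instance : LinearOrder RO where
  le := fun a b => a = b ∨ ltR a b
  lt := ltR
  le_refl := fun a => Or.inl rfl
  le_trans := by
    rintro a b c (h1 | h1) (h2 | h2)
    · exact Or.inl (h1.trans h2)
    · exact Or.inr (h1 ▸ h2)
    · exact Or.inr (h2 ▸ h1)
    · exact Or.inr (ltR_trans h1 h2)
  lt_iff_le_not_ge := by
    intro a b
    constructor
    · intro h
      refine ⟨Or.inr h, ?_⟩
      rintro (h1 | h1)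
      · rw [h1] at h; exact ltR_irrefl _ h
      · exact ltR_irrefl _ (ltR_trans h h1)
    · rintro ⟨h1 | h1, h2⟩
      · exact absurd (Or.inl h1.symm) h2
      · exact h1
  le_antisymm := by
    rintro a b (h1 | h1) (h2 | h2)
    · exact h1
    · exact h1
    · exact h2.symm
    · exact absurd (ltR_trans h1 h2) (ltR_irrefl _)
  le_total := by
    intro a b
    rcases ltR_total a b with h | h | h
    · exact Or.inl (Or.inr h)
    · exact Or.inl (Or.inl h)
    · exact Or.inr (Or.inr h)
  toDecidableLE := Classical.decRel _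

theorem toRO_lt {x y : ℕ} : toRO x < toRO y ↔ ltR x y := Iff.rfl

theorem toRO_inj : Function.Injective toRO := fun _ _ h => h

theorem toRO_lt_iff {s x y : ℕ} (hx : x ≤ s) (hy : y ≤ s) :
    toRO x < toRO y ↔ (OO s).idxOf x < (OO s).idxOf y := ltR_iff hx hy

theorem toRO_le_iff {s x y : ℕ} (hx : x ≤ s) (hy : y ≤ s) :
    toRO x ≤ toRO y ↔ (OO s).idxOf x ≤ (OO s).idxOf y := by
  rw [← not_lt, toRO_lt_iff hy hx, not_lt]

end Pool.Agent.LibZetaOmega
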