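import Mathlib
import Pool.Agent.LibZetaOmega.Order

set_option autoImplicit false

namespace Pool.Agent.LibZetaOmega

theorem mem_Dl {n s x : ℕ} : x ∈ Dl n s ↔ x ∈ ages (lev n s) ∧ x < s := by
  rw [Dl, List.mem_filter]; simp

theorem Dl_succ_sub {n s x : ℕ} (h : x ∈ Dl (n + 1) s) : x ∈ Dl n s := by
  rw [mem_Dl] at h ⊢
  exact ⟨mem_ages_F h.1, h.2⟩

theorem zero_mem_lev (n s : ℕ) : 0 ∈ ages (lev n s) := by
  induction n with
  | zero => exact mem_lev_zero.mpr (Nat.zero_le _)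
  | succ n ih =>
    obtain ⟨P, hP, -, -⟩ := lev_coh' ih
    have hlen : (lev n 0).length = 1 := by
      have := congrArg List.length (zero_T n).2
      simpa [ages] using this
    obtain ⟨h1, h2⟩ := F_low n (lev n 0) (by omega)
    have h3 : 0 ∈ ages (F n (lev n 0)) := by rw [h1, (zero_T n).2]; simp
    rw [ages, List.mem_map] at h3
    obtain ⟨j, hj, hjt⟩ := h3
    obtain ⟨Q, R, hQR⟩ := List.append_of_mem hj
    obtain ⟨Q', hQ'⟩ := F_survive n j R (lev n 0) ⟨Q, hQR⟩ P (by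
      intro P1 c V P2 _
      simp [safe, h2 j hj])
    rw [lev, hP, hQ', ages_append]
    simp [ages, hjt]

theorem zero_mem_Dl {n s : ℕ} (hs : 0 < s) : 0 ∈ Dl n s := mem_Dl.mpr ⟨zero_mem_lev n s, hs⟩

theorem par_mem {s : ℕ} (hs : 0 < s) : par s ∈ Dl (stop s + 1) s := by
  rw [par, List.getD_eq_getElem?_getD]
  cases h : (Dl (stop s + 1) s).reverse[(Nat.unpair (code s)).1]? with
  | none => exact zero_mem_Dl hs
  | some a =>
    have := List.mem_of_getElem? h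
    simpa using this

theorem young_mem : ∀ {L : List ℕ}, L ≠ [] → young L ∈ L := by
  intro L
  induction L with
  | nil => intro h; exact absurd rfl h
  | cons a L ih =>
    intro _
    by_cases hL : L = []
    · subst hL; simp [young]
    · have h1 := ih hL
      change max a (young L) ∈ a :: L
      rcases max_choice a (young L) with h | h
      · rw [h]; exact List.mem_cons_self
      · rw [h]; exact List.mem_cons_of_mem _ h1

theorem le_young : ∀ {L : List ℕ} {x : ℕ}, x ∈ L → x ≤ young L := by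
  intro L
  induction L with
  | nil => intro x h; simp at h
  | cons a L ih =>
    intro x h
    change x ≤ max a (young L)
    rcases List.mem_cons.mp h with rfl | h
    · exact le_max_left _ _
    · exact (ih h).trans (le_max_right _ _)

theorem mem_cut {O Dn : List ℕ} {v x : ℕ} {r : Bool} :
    x ∈ cut O Dn v r ↔ x ∈ Dn ∧ (O.idxOf x < O.idxOf v ∨ (x = v ∧ r = true)) := by
  rw [cut, List.mem_filter]; simp

theorem mem_seg {O Dn A B : List ℕ} {x : ℕ} :
    x ∈ seg O Dn A B ↔ x ∈ Dn ∧ (∀ a ∈ A, O.idxOf a ≤ O.idxOf x) ∧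
      ∀ b ∈ B, O.idxOf x ≤ O.idxOf b := by
  rw [seg, List.mem_filter]; simp

/-- `A` is a lower part of `Dn`. -/
def Low (O Dn A : List ℕ) : Prop :=
  (∀ x ∈ A, x ∈ Dn) ∧ ∀ x ∈ A, ∀ y ∈ Dn, O.idxOf y ≤ O.idxOf x → y ∈ A

theorem cut_low {O Dn : List ℕ} {v : ℕ} {r : Bool} (hO : ∀ x ∈ Dn, x ∈ O) :
    Low O Dn (cut O Dn v r) := by
  refine ⟨fun x hx => (mem_cut.mp hx).1, ?_⟩
  intro x hx y hy hle
  rw [mem_cut] at hx ⊢
  refine ⟨hy, ?_⟩
  rcases hx.2 with h | ⟨h, hr⟩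
  · left; omega
  · rw [h] at hle
    rcases Nat.lt_or_eq_of_le hle with h1 | h1
    · exact Or.inl h1
    · exact Or.inr ⟨(List.idxOf_inj (hO y hy)).mp h1, hr⟩

theorem topA_low {O : List ℕ} {s : ℕ} (hO : ∀ x ∈ Dl (stop s + 1) s, x ∈ O) :
    Low O (Dl (stop s + 1) s) (topA O s) := cut_low hO

/-- The description of `nextA`. -/
theorem nextA_cases (O Dn Dn1 A : List ℕ) :
    ((∀ x ∈ Dn1, x ∈ A) ∧ nextA O Dn Dn1 A = Dn) ∨
    ((∃ x ∈ Dn1, x ∉ A) ∧ A = [] ∧ nextA O Dn Dn1 A = []) ∨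
    ((∃ x ∈ Dn1, x ∉ A) ∧ A ≠ [] ∧ ∃ B v r, (∀ x, x ∈ B ↔ x ∈ Dn1 ∧ x ∉ A) ∧
      v = young (seg O Dn A B) ∧ (r = true ↔ v ∈ A ∨ (v ∉ B ∧ side v = true)) ∧
      nextA O Dn Dn1 A = cut O Dn v r) := by
  by_cases hB : Dn1.filter (fun x => decide (x ∉ A)) = []
  · left
    refine ⟨?_, by rw [nextA, if_pos hB]⟩
    intro x hx
    by_contra hcon
    rw [List.filter_eq_nil_iff] at hB
    have := hB x hx
    simp [hcon] at this
  · right
    have hex : ∃ x ∈ Dn1, x ∉ A := by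
      obtain ⟨x, hx⟩ := List.exists_mem_of_ne_nil _ hB
      rw [List.mem_filter] at hx
      exact ⟨x, hx.1, by simpa using hx.2⟩
    by_cases hA : A = []
    · left
      exact ⟨hex, hA, by rw [nextA, if_neg hB, if_pos hA]⟩
    · right
      refine ⟨hex, hA, Dn1.filter (fun x => decide (x ∉ A)),
        young (seg O Dn A (Dn1.filter (fun x => decide (x ∉ A)))), _, ?_, rfl, ?_,
        by rw [nextA, if_neg hB, if_neg hA]⟩
      · intro x
        rw [List.mem_filter]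
        simp
      · simp only [decide_eq_true_eq]

theorem seg_ne_nil {O Dn Dn1 A B : List ℕ} (hsub : ∀ x ∈ Dn1, x ∈ Dn)
    (hA : Low O Dn1 A) (hne : A ≠ []) (hB : ∀ x, x ∈ B ↔ x ∈ Dn1 ∧ x ∉ A) :
    seg O Dn A B ≠ [] := by
  classical
  obtain ⟨a, ha⟩ := List.exists_mem_of_ne_nil _ hne
  obtain ⟨y, hy, hmax⟩ := A.toFinset.exists_max_image (fun x => O.idxOf x)
    ⟨a, List.mem_toFinset.mpr ha⟩
  rw [List.mem_toFinset] at hy
  apply List.ne_nil_of_mem (a := y)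
  rw [mem_seg]
  refine ⟨hsub y (hA.1 y hy), fun a ha => hmax a (List.mem_toFinset.mpr ha), ?_⟩
  intro b hb
  rw [hB] at hb
  by_contra hcon
  exact hb.2 (hA.2 y hy b hb.1 (by omega))

theorem nextA_low {O Dn Dn1 A : List ℕ} (hO : ∀ x ∈ Dn, x ∈ O) :
    Low O Dn (nextA O Dn Dn1 A) := by
  rcases nextA_cases O Dn Dn1 A with ⟨_, h⟩ | ⟨_, _, h⟩ | ⟨_, _, B, v, r, _, _, _, h⟩
  · rw [h]; exact ⟨fun x hx => hx, fun _ _ y hy _ => hy⟩
  · rw [h]; exact ⟨fun x hx => by simp at hx, fun x hx => by simp at hx⟩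
  · rw [h]; exact cut_low hO

theorem nextA_cons {O Dn Dn1 A : List ℕ} (hO : ∀ x ∈ Dn, x ∈ O) (hsub : ∀ x ∈ Dn1, x ∈ Dn)
    (hA : Low O Dn1 A) {x : ℕ} (hx : x ∈ Dn1) : x ∈ nextA O Dn Dn1 A ↔ x ∈ A := by
  rcases nextA_cases O Dn Dn1 A with ⟨h1, h⟩ | ⟨_, h1, h⟩ | ⟨h1, h2, B, v, r, hB, hv, hr, h⟩
  · rw [h]; exact ⟨fun _ => h1 x hx, fun _ => hsub x hx⟩
  · rw [h, h1]
  · have hvs : v ∈ seg O Dn A B := by
      rw [hv]; exact young_mem (seg_ne_nil hsub hA h2 hB)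
    rw [mem_seg] at hvs
    rw [h, mem_cut]
    constructor
    · rintro ⟨_, h3⟩
      by_contra hxA
      have hxB : x ∈ B := (hB x).mpr ⟨hx, hxA⟩
      have h4 := hvs.2.2 x hxB
      rcases h3 with h3 | ⟨h3, h5⟩
      · omega
      · rw [← h3] at hr
        rcases hr.mp h5 with h6 | h6
        · exact hxA h6
        · exact h6.1 hxB
    · intro hxA
      refine ⟨hsub x hx, ?_⟩
      have h4 := hvs.2.1 x hxA
      rcases Nat.lt_or_eq_of_le h4 with h5 | h5
      · exact Or.inl h5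
      · have h6 : x = v := (List.idxOf_inj (hO x (hsub x hx))).mp h5
        exact Or.inr ⟨h6, hr.mpr (Or.inl (h6 ▸ hxA))⟩

/-- The lower part at level `n`. -/
def Al (s n : ℕ) : List ℕ := AA (OO (s - 1)) s (stop s + 1 - n)

theorem Al_top (s : ℕ) : Al s (stop s + 1) = topA (OO (s - 1)) s := by
  rw [Al, Nat.sub_self]; rfl

theorem Al_step {s n : ℕ} (hn : n ≤ stop s) :
    Al s n = nextA (OO (s - 1)) (Dl n s) (Dl (n + 1) s) (Al s (n + 1)) := by
  rw [Al, Al]
  have h1 : stop s + 1 - n = (stop s - n) + 1 := by omega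
  have h2 : stop s + 1 - (n + 1) = stop s - n := by omega
  rw [h1, h2, AA]
  have h3 : stop s - (stop s - n) = n := by omega
  rw [h3]

theorem Dl_OO {s n x : ℕ} (hx : x ∈ Dl n s) : x ∈ OO (s - 1) := by
  rw [mem_OO]
  have := (mem_Dl.mp hx).2
  omega

theorem Al_low {s n : ℕ} (hn : n ≤ stop s + 1) : Low (OO (s - 1)) (Dl n s) (Al s n) := by
  rcases Nat.lt_or_eq_of_le hn with h | h
  · rw [Al_step (by omega)]
    exact nextA_low (fun x hx => Dl_OO hx)
  · rw [h, Al_top]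
    exact topA_low (fun x hx => Dl_OO hx)

theorem Al_cons {s n x : ℕ} (hn : n ≤ stop s) (hx : x ∈ Dl (n + 1) s) :
    x ∈ Al s n ↔ x ∈ Al s (n + 1) := by
  rw [Al_step hn]
  exact nextA_cons (fun x hx => Dl_OO hx) (fun x hx => Dl_succ_sub hx)
    (Al_low (by omega)) hx

theorem mem_Dl_zero {s x : ℕ} : x ∈ Dl 0 s ↔ x < s := by
  rw [mem_Dl, mem_lev_zero]
  omega

theorem lt_iff_Al_zero {s x : ℕ} (hs : 0 < s) (hx : x < s) : toRO x < toRO s ↔ x ∈ Al s 0 := by
  obtain ⟨s, rfl⟩ : ∃ t, s = t + 1 := ⟨s - 1, by omega⟩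
  rw [toRO_lt_iff (s := s + 1) hx.le le_rfl, OO, ins]
  have hAl : Al (s + 1) 0 = AA (OO s) (s + 1) (stop (s + 1) + 1) := by
    rw [Al]; simp
  rw [← hAl]
  have hk := List.findIdx_le_length (xs := OO s) (p := fun x => decide (x ∉ Al (s + 1) 0))
  have hxO : x ∈ OO s := mem_OO.mpr (by omega)
  rw [idxOf_insert hk (by omega), idxOf_insert_self hk (by rw [mem_OO]; omega)]
  have hlow := Al_low (s := s + 1) (n := 0) (by omega)
  simp only [Nat.add_sub_cancel] at hlow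
  have key : (OO s).idxOf x < (OO s).findIdx (fun x => decide (x ∉ Al (s + 1) 0)) ↔
      x ∈ Al (s + 1) 0 := by
    constructor
    · intro h
      have h1 := List.not_of_lt_findIdx h
      simpa using h1
    · intro h
      by_contra hcon
      push Not at hcon
      have hlt : (OO s).findIdx (fun x => decide (x ∉ Al (s + 1) 0)) < (OO s).length :=
        lt_of_le_of_lt hcon (List.idxOf_lt_length_of_mem hxO)
      have h1 := List.findIdx_getElem (w := hlt)
      simp only [decide_eq_true_eq] at h1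
      apply h1
      refine hlow.2 x h _ ?_ ?_
      · rw [mem_Dl_zero]
        have := List.getElem_mem hlt
        rw [mem_OO] at this
        omega
      · rw [(OO_nodup s).idxOf_getElem]
        exact hcon
  rw [← key]
  split_ifs with h
  · exact ⟨fun _ => h, fun _ => h⟩
  · constructor
    · intro h2; omega
    · intro h2; exact absurd h2 h

theorem lt_iff_Al {s n x : ℕ} (hn : n ≤ stop s + 1) (hx : x ∈ Dl n s) :
    toRO x < toRO s ↔ x ∈ Al s n := by
  induction n with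
  | zero => 
    have := mem_Dl_zero.mp hx
    exact lt_iff_Al_zero (by omega) this
  | succ n ih =>
    rw [ih (by omega) (Dl_succ_sub hx), Al_cons (by omega) hx]

/-- Strictly older elements, as a set. -/
def DS (n s : ℕ) : Set ℕ := {x | x ∈ Dl n s}

theorem mem_Dl_T {n z x : ℕ} (hz : z ∈ T n) : x ∈ Dl n z ↔ x ∈ T n ∧ x < z := by
  rw [mem_Dl, T_lev n z hz]
  constructor
  · rintro ⟨⟨h1, _⟩, h2⟩; exact ⟨h1, h2⟩
  · rintro ⟨h1, h2⟩; exact ⟨⟨h1, h2.le⟩, h2⟩

theorem idx_lt {s x y : ℕ} (hx : x < s) (hy : y < s) :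
    toRO x < toRO y ↔ (OO (s - 1)).idxOf x < (OO (s - 1)).idxOf y :=
  toRO_lt_iff (by omega) (by omega)

theorem idx_le {s x y : ℕ} (hx : x < s) (hy : y < s) :
    toRO x ≤ toRO y ↔ (OO (s - 1)).idxOf x ≤ (OO (s - 1)).idxOf y :=
  toRO_le_iff (by omega) (by omega)

theorem mid_low {n z : ℕ} (hz : z ∈ T n) (hn : n ≤ stop z) : ∀ y ∈ DS (n + 1) z,
    ∀ y' ∈ DS (n + 1) z, toRO y < toRO z → toRO z < toRO y' →
    (∀ u ∈ DS (n + 1) z, toRO u ≤ toRO y ∨ toRO y' ≤ toRO u) →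
    ∃ v ∈ T n, v < z ∧ toRO y ≤ toRO v ∧ toRO v ≤ toRO y' ∧
      (∀ x ∈ T n, x < z → toRO y ≤ toRO x → toRO x ≤ toRO y' → x ≤ v) ∧
      ((toRO v < toRO z ∧ (v = y ∨ (v ≠ y' ∧ side v = true)) ∧
          ∀ x ∈ T n, x < z → ¬ (toRO v < toRO x ∧ toRO x < toRO z)) ∨
       (toRO z < toRO v ∧ (v = y' ∨ (v ≠ y ∧ side v = false)) ∧
          ∀ x ∈ T n, x < z → ¬ (toRO z < toRO x ∧ toRO x < toRO v))) := by
  intro y hy y' hy' hyz hzy' hadj
  have hyl : y < z := (mem_Dl.mp hy).2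
  have hy'l : y' < z := (mem_Dl.mp hy').2
  have hyA : y ∈ Al z (n + 1) := (lt_iff_Al (by omega) hy).mp hyz
  have hy'A : y' ∉ Al z (n + 1) := fun h =>
    absurd ((lt_iff_Al (by omega) hy').mpr h) (not_lt.mpr hzy'.le)
  have hstep := Al_step hn
  have hlowA : Low (OO (z - 1)) (Dl (n + 1) z) (Al z (n + 1)) := Al_low (by omega)
  rcases nextA_cases (OO (z - 1)) (Dl n z) (Dl (n + 1) z) (Al z (n + 1)) with
    ⟨h1, h⟩ | ⟨_, h1, h⟩ | ⟨h1, h2, B, v, r, hB, hv, hr, h⟩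
  · exact absurd (h1 y' hy') hy'A
  · rw [h1] at hyA; simp at hyA
  rw [h] at hstep
  have hvs : v ∈ seg (OO (z - 1)) (Dl n z) (Al z (n + 1)) B := by
    rw [hv]; exact young_mem (seg_ne_nil (fun x hx => Dl_succ_sub hx) hlowA h2 hB)
  have hvs' := mem_seg.mp hvs
  have hvT := (mem_Dl_T hz).mp hvs'.1
  have hy'B : y' ∈ B := (hB y').mpr ⟨hy', hy'A⟩
  have hyv : toRO y ≤ toRO v := (idx_le hyl hvT.2).mpr (hvs'.2.1 y hyA)
  have hvy' : toRO v ≤ toRO y' := (idx_le hvT.2 hy'l).mpr (hvs'.2.2 y' hy'B)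
  have hAle : ∀ a ∈ Al z (n + 1), toRO a ≤ toRO y := by
    intro a ha
    have haD := hlowA.1 a ha
    have h3 := (lt_iff_Al (by omega) haD).mpr ha
    rcases hadj a haD with h4 | h4
    · exact h4
    · exact absurd (h3.trans hzy') (not_lt.mpr h4)
  have hBge : ∀ b ∈ B, toRO y' ≤ toRO b := by
    intro b hb
    have hb' := (hB b).mp hb
    have h3 : ¬ toRO b < toRO z := fun hc => hb'.2 ((lt_iff_Al (by omega) hb'.1).mp hc)
    rcases hadj b hb'.1 with h4 | h4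
    · exact absurd (h4.trans_lt hyz) h3
    · exact h4
  refine ⟨v, hvT.1, hvT.2, hyv, hvy', ?_, ?_⟩
  · intro x hxT hxz h3 h4
    rw [hv]
    apply le_young
    rw [mem_seg]
    refine ⟨(mem_Dl_T hz).mpr ⟨hxT, hxz⟩, ?_, ?_⟩
    · intro a ha
      have haz := (mem_Dl.mp (hlowA.1 a ha)).2
      exact (idx_le haz hxz).mp ((hAle a ha).trans h3)
    · intro b hb
      have hbz := (mem_Dl.mp ((hB b).mp hb).1).2
      exact (idx_le hxz hbz).mp (h4.trans (hBge b hb))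
  · have hmem : ∀ x ∈ T n, x < z → (toRO x < toRO z ↔ toRO x < toRO v ∨ (x = v ∧ r = true)) := by
      intro x hxT hxz
      have hxD := (mem_Dl_T hz).mpr ⟨hxT, hxz⟩
      rw [lt_iff_Al (by omega) hxD, hstep, mem_cut, idx_lt hxz hvT.2]
      simp [hxD]
    cases hrr : r with
    | true =>
      left
      refine ⟨(hmem v hvT.1 hvT.2).mpr (Or.inr ⟨rfl, hrr⟩), ?_, ?_⟩
      · rcases hr.mp hrr with h3 | h3
        · left
          exact toRO_inj (le_antisymm (hAle v h3) hyv)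
        · right
          exact ⟨fun e => h3.1 (e ▸ hy'B), h3.2⟩
      · rintro x hxT hxz ⟨h3, h4⟩
        rcases (hmem x hxT hxz).mp h4 with h5 | ⟨h5, _⟩
        · exact absurd h3 (not_lt.mpr h5.le)
        · rw [h5] at h3; exact lt_irrefl _ h3
    | false =>
      right
      have h3 : ¬ toRO v < toRO z := by
        rw [hmem v hvT.1 hvT.2, hrr]
        simp
      have h4 : toRO z < toRO v := lt_of_le_of_ne (not_lt.mp h3) (fun e => by
        have := toRO_inj e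
        have := hvT.2
        omega)
      refine ⟨h4, ?_, ?_⟩
      · have hr' : ¬ (v ∈ Al z (n + 1) ∨ (v ∉ B ∧ side v = true)) := fun hc => by
          have := hr.mpr hc
          rw [hrr] at this
          simp at this
        push Not at hr'
        by_cases hvB : v ∈ B
        · left
          exact toRO_inj (le_antisymm hvy' (hBge v hvB))
        · right
          refine ⟨fun e => hr'.1 (e ▸ hyA), ?_⟩
          have := hr'.2 hvB
          simpa using this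
      · rintro x hxT hxz ⟨h5, h6⟩
        exact absurd ((hmem x hxT hxz).mpr (Or.inl h6)) (not_lt.mpr h5.le)

theorem top_low {n z : ℕ} (hz : z ∈ T n) (hn : n ≤ stop z)
    (h : ∀ u ∈ DS (n + 1) z, toRO u < toRO z) : ∀ x ∈ T n, x < z → toRO x < toRO z := by
  intro x hxT hxz
  have hxD := (mem_Dl_T hz).mpr ⟨hxT, hxz⟩
  rw [lt_iff_Al (by omega) hxD, Al_step hn]
  have hall : ∀ x ∈ Dl (n + 1) z, x ∈ Al z (n + 1) := fun u hu =>
    (lt_iff_Al (by omega) hu).mp (h u hu)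
  rcases nextA_cases (OO (z - 1)) (Dl n z) (Dl (n + 1) z) (Al z (n + 1)) with
    ⟨h1, h⟩ | ⟨⟨u, hu, hu'⟩, h1, h⟩ | ⟨⟨u, hu, hu'⟩, _⟩
  · rw [h]; exact hxD
  · exact absurd (hall u hu) hu'
  · exact absurd (hall u hu) hu'

theorem bot_low {n z : ℕ} (hz : z ∈ T n) (hn : n ≤ stop z)
    (h : ∀ u ∈ DS (n + 1) z, toRO z < toRO u) : ∀ x ∈ T n, x < z → toRO z < toRO x := by
  intro x hxT hxz
  have hxD := (mem_Dl_T hz).mpr ⟨hxT, hxz⟩
  have hnone : ∀ x ∈ Dl (n + 1) z, x ∉ Al z (n + 1) := fun u hu hc =>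
    absurd ((lt_iff_Al (by omega) hu).mpr hc) (not_lt.mpr (h u hu).le)
  have hA : Al z (n + 1) = [] := by
    by_contra hcon
    obtain ⟨a, ha⟩ := List.exists_mem_of_ne_nil _ hcon
    exact hnone a ((Al_low (by omega)).1 a ha) ha
  have h0 : (0 : ℕ) ∈ Dl (n + 1) z := zero_mem_Dl (by omega)
  have h2 : ¬ toRO x < toRO z := by
    rw [lt_iff_Al (by omega) hxD, Al_step hn]
    rcases nextA_cases (OO (z - 1)) (Dl n z) (Dl (n + 1) z) (Al z (n + 1)) with
      ⟨h1, h⟩ | ⟨_, h1, h⟩ | ⟨_, h1, h⟩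
    · exact absurd (h1 0 h0) (hnone 0 h0)
    · rw [h]; simp
    · exact absurd hA h1
  exact lt_of_le_of_ne (not_lt.mp h2) (fun e => by have := toRO_inj e; omega)

end Pool.Agent.LibZetaOmega
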