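import Mathlib
import Pool.Agent.LibZetaOmega.Cut
import Pool.Agent.LibZetaOmega.Assembly

set_option autoImplicit false

namespace Pool.Agent.LibZetaOmega

theorem stopc_false {s m : ℕ} (h : stopc s m = false) : m < ix m s ∧ ix m s % 2 = 0 := by
  simp only [stopc, decide_eq_false_iff_not, not_or] at h
  omega

theorem stopc_true {s m : ℕ} (h : stopc s m = true) : ix m s ≤ m ∨ ix m s % 2 = 1 := by
  simpa [stopc] using h

theorem mem_lev_of_stopc (s : ℕ) : ∀ n, (∀ m, m < n → stopc s m = false) →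
    s ∈ ages (lev n s) := by
  intro n
  induction n with
  | zero => intro _; exact mem_lev_zero.mpr le_rfl
  | succ n ih =>
    intro h
    have h1 := ih (fun m hm => h m (by omega))
    have h2 := stopc_false (h n (by omega))
    obtain ⟨W, G, h3, -⟩ := lev_succ_prom h1 (Or.inr h2.2)
    rw [h3]; simp [ages]

theorem stop_spec (s : ℕ) : stopc s (stop s) = true ∧ (∀ m, m < stop s → stopc s m = false) ∧
    stop s ≤ s := by
  have h1 : ∀ m, m < stop s → m < s + 1 → stopc s m = false := by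
    intro m hm hms
    have := List.not_of_lt_findIdx hm
    simpa using this
  have h2 : stop s < (List.range (s + 1)).length := by
    by_contra hcon
    rw [List.length_range] at hcon
    have h3 : ∀ m, m < s + 1 → stopc s m = false := fun m hm => h1 m (by omega) hm
    have h4 := mem_lev_of_stopc s s (fun m hm => h3 m (by omega))
    have h5 := ix_le_self h4
    have h6 := stopc_false (h3 s (by omega))
    omega
  have h2' : (List.range (s + 1)).findIdx (stopc s) < (List.range (s + 1)).length := h2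
  have h3 := List.findIdx_getElem (w := h2') (p := stopc s)
  rw [List.getElem_range] at h3
  rw [List.length_range] at h2
  exact ⟨h3, fun m hm => h1 m hm (by omega), by omega⟩

theorem stop_eq {s n : ℕ} (h1 : stopc s n = true) (h2 : ∀ m, m < n → stopc s m = false) :
    stop s = n := by
  obtain ⟨h3, h4, -⟩ := stop_spec s
  rcases lt_trichotomy (stop s) n with h | h | h
  · rw [h2 _ h] at h3; simp at h3
  · exact h
  · rw [h4 _ h] at h1; simp at h1

theorem prom_of_T {n z : ℕ} (hz : z ∈ T (n + 1)) : prom n z := by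
  by_contra hcon
  exact not_mem_of_not_prom (T_self hz.1) hcon (T_self hz)

theorem ix_stop_low {n z : ℕ} (hz : z ∈ T n) (hn : stop z < n) : ix (stop z) z ≤ stop z := by
  have h1 := prom_of_T (T_anti (Nat.succ_le_of_lt hn) hz)
  have h2 := stopc_true (stop_spec z).1
  rcases h1 with h1 | h1
  · exact h1
  · rcases h2 with h2 | h2
    · exact h2
    · omega

theorem Dl_high {n z : ℕ} (hz : z ∈ T n) (hn : stop z < n) : Dl (n + 1) z = Dl n z := by
  have h1 := ix_stop_low hz hn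
  have h2 : z ∈ T (stop z) := T_anti hn.le hz
  obtain ⟨d, rfl⟩ := Nat.exists_eq_add_of_le hn.le
  have h3 := (low_stable h2 h1 d).2.1
  have h4 := (low_stable h2 h1 (d + 1)).2.1
  rw [Dl, Dl, h3, add_assoc, h4]

theorem mid_high {n z : ℕ} (hz : z ∈ T n) (hn : stop z < n) : ∀ y ∈ DS (n + 1) z,
    ∀ y' ∈ DS (n + 1) z, toRO y < toRO z → toRO z < toRO y' →
    (∀ u ∈ DS (n + 1) z, toRO u ≤ toRO y ∨ toRO y' ≤ toRO u) →
    ∃ v ∈ T n, v < z ∧ toRO y ≤ toRO v ∧ toRO v ≤ toRO y' ∧
      (∀ x ∈ T n, x < z → toRO y ≤ toRO x → toRO x ≤ toRO y' → x ≤ v) ∧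
      ((toRO v < toRO z ∧ (v = y ∨ (v ≠ y' ∧ side v = true)) ∧
          ∀ x ∈ T n, x < z → ¬ (toRO v < toRO x ∧ toRO x < toRO z)) ∨
       (toRO z < toRO v ∧ (v = y' ∨ (v ≠ y ∧ side v = false)) ∧
          ∀ x ∈ T n, x < z → ¬ (toRO z < toRO x ∧ toRO x < toRO v))) := by
  intro y hy y' hy' hyz hzy' hadj
  have hD : ∀ x, x ∈ DS (n + 1) z ↔ x ∈ T n ∧ x < z := by
    intro x
    change x ∈ Dl (n + 1) z ↔ _
    rw [Dl_high hz hn, mem_Dl_T hz]
  have hyy' := hyz.trans hzy'
  have hyT := (hD y).mp hy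
  have hy'T := (hD y').mp hy'
  have hval : ∀ x ∈ T n, x < z → toRO y ≤ toRO x → toRO x ≤ toRO y' → x = y ∨ x = y' := by
    intro x hx hxz h1 h2
    rcases hadj x ((hD x).mpr ⟨hx, hxz⟩) with h3 | h3
    · exact Or.inl (toRO_inj (le_antisymm h3 h1))
    · exact Or.inr (toRO_inj (le_antisymm h2 h3))
  rcases le_total y' y with h | h
  · refine ⟨y, hyT.1, hyT.2, le_rfl, hyy'.le, ?_, Or.inl ⟨hyz, Or.inl rfl, ?_⟩⟩
    · intro x hx hxz h1 h2
      rcases hval x hx hxz h1 h2 with h3 | h3 <;> omega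
    · rintro x hx hxz ⟨h1, h2⟩
      rcases hval x hx hxz h1.le (h2.trans hzy').le with h3 | h3
      · rw [h3] at h1; exact lt_irrefl _ h1
      · rw [h3] at h2; exact absurd h2 (not_lt.mpr hzy'.le)
  · refine ⟨y', hy'T.1, hy'T.2, hyy'.le, le_rfl, ?_, Or.inr ⟨hzy', Or.inl rfl, ?_⟩⟩
    · intro x hx hxz h1 h2
      rcases hval x hx hxz h1 h2 with h3 | h3 <;> omega
    · rintro x hx hxz ⟨h1, h2⟩
      rcases hval x hx hxz (hyz.trans h1).le h2.le with h3 | h3
      · rw [h3] at h1; exact absurd h1 (not_lt.mpr hyz.le)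
      · rw [h3] at h2; exact lt_irrefl _ h2

/-- The position of an older element in the level list. -/
theorem Dl_pos {n s y : ℕ} (hy : y ∈ ages (lev n s)) (hys : y < s) :
    ((Dl n s).reverse).getD (ix n y) 0 = y := by
  obtain ⟨P, hP, -, hyy⟩ := lev_coh' hy
  have h1 : Dl n s = (ages P).filter (fun t => decide (t < s)) ++ ages (lev n y) := by
    rw [Dl, hP, ages_append, List.filter_append]
    congr 1
    rw [List.filter_eq_self]
    intro a ha
    have := mem_lev_le ha
    simp; omega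
  have h2 : ages (lev n y) = y :: ages (lev n y).tail := by
    conv_lhs => rw [lev_eq hyy]
    rfl
  have h3 : (Dl n s).reverse = (ages (lev n y).tail).reverse ++
      (y :: ((ages P).filter (fun t => decide (t < s))).reverse) := by
    rw [h1, h2]; simp
  have h4 : (ages (lev n y).tail).reverse.length = ix n y := by simp [ages, ix]
  rw [h3, List.getD_eq_getElem?_getD, List.getElem?_append_right (by omega), h4]
  simp

theorem topA_iff {s x : ℕ} (hx : x ∈ Dl (stop s + 1) s) :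
    toRO x < toRO s ↔ (toRO x < toRO (par s) ∨ (x = par s ∧ side s = true)) := by
  have hxs := (mem_Dl.mp hx).2
  have hps := (mem_Dl.mp (par_mem (s := s) (by omega))).2
  rw [lt_iff_Al le_rfl hx, Al_top, topA, List.mem_filter, idx_lt hxs hps]
  simp [hx]

theorem att_R {s : ℕ} (hs : 0 < s) (hside : side s = true) : toRO (par s) < toRO s ∧
    ∀ u ∈ Dl (stop s + 1) s, ¬ (toRO (par s) < toRO u ∧ toRO u < toRO s) := by
  refine ⟨(topA_iff (par_mem hs)).mpr (Or.inr ⟨rfl, hside⟩), ?_⟩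
  rintro u hu ⟨h1, h2⟩
  rcases (topA_iff hu).mp h2 with h3 | ⟨h3, _⟩
  · exact absurd h3 (not_lt.mpr h1.le)
  · rw [h3] at h1; exact lt_irrefl _ h1

theorem att_L {s : ℕ} (hs : 0 < s) (hside : side s = false) : toRO s < toRO (par s) ∧
    ∀ u ∈ Dl (stop s + 1) s, ¬ (toRO s < toRO u ∧ toRO u < toRO (par s)) := by
  have h0 : ¬ toRO (par s) < toRO s := by
    rw [topA_iff (par_mem hs), hside]
    simp
  have hps := (mem_Dl.mp (par_mem (s := s) (by omega))).2
  refine ⟨lt_of_le_of_ne (not_lt.mp h0) (fun e => by have := toRO_inj e; omega), ?_⟩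
  rintro u hu ⟨h1, h2⟩
  exact absurd ((topA_iff hu).mpr (Or.inl h2)) (not_lt.mpr h1.le)

theorem bool_code (b : Bool) (i m : ℕ) :
    decide ((Nat.unpair (Nat.pair m (2 * i + b.toNat))).2 % 2 = 1) = b := by
  rw [Nat.unpair_pair]
  cases b <;> simp

/-- Finite level bookkeeping. -/
theorem book_fin {n y : ℕ} (hy : y ∈ T (n + 1)) (b : Bool) (N : ℕ) :
    ∃ w ∈ T n, N < w ∧ y < w ∧ (∀ z ∈ T n, w ∉ DS (n + 1) z) ∧ side w = b ∧ stop w = n ∧
      par w = y := by
  obtain ⟨w, hw, hix⟩ := exists_ix n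
    (2 * Nat.pair (ix (n + 1) y) (2 * (N + y + n) + b.toNat) + 1)
  have hpair := Nat.right_le_pair (ix (n + 1) y) (2 * (N + y + n) + b.toNat)
  have hle := ix_le_self (T_self hw)
  have hnp : ¬ prom n w := by
    simp only [prom, not_or]
    omega
  have hstop : stop w = n := by
    apply stop_eq
    · simp only [stopc, decide_eq_true_eq]
      right; omega
    · intro m hm
      have h1 : w ∈ T (m + 1) := T_anti (Nat.succ_le_of_lt hm) hw
      have h2 := prom_of_T h1
      simp only [stopc, decide_eq_false_iff_not, not_or]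
      have h3 : ¬ ix m w ≤ m := by
        intro hc
        obtain ⟨d, hd⟩ := Nat.exists_eq_add_of_le hm.le
        have h4 := (low_stable h1.1 hc d).2.2
        rw [← hd] at h4
        omega
      refine ⟨h3, ?_⟩
      rcases h2 with h2 | h2 <;> omega
  have hcode : code w = Nat.pair (ix (n + 1) y) (2 * (N + y + n) + b.toNat) := by
    rw [code, hstop, hix]; omega
  have hyw : y < w := by omega
  refine ⟨w, hw, by omega, hyw, ?_, ?_, hstop, ?_⟩
  · intro z hz hc
    have h1 := (mem_Dl.mp hc)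
    obtain ⟨_, _, _, h2⟩ := lev_coh' h1.1
    exact not_mem_of_not_prom (T_self hw) hnp h2
  · rw [side, hcode]
    exact bool_code b _ _
  · rw [par, hstop, hcode, Nat.unpair_pair]
    exact Dl_pos (hy.2 w hw hyw.le) hyw

theorem level (n : ℕ) : Level toRO side (T n) (T (n + 1)) (DS (n + 1)) where
  inj := toRO_inj
  zero := (zero_T (n + 1)).1
  sub := T_sub n
  inf := T_infinite (n + 1)
  lower := fun z hz t ht htz => mem_Dl.mpr ⟨ht.2 z hz htz.le, htz⟩
  upper := fun z hz t ht => by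
    have h := mem_Dl.mp ht
    exact ⟨((T_lev n z hz t).mp (mem_ages_F h.1)).1, h.2⟩
  mono := fun z hz t ht htz u hu hut => by
    have h := mem_Dl.mp hu
    exact mem_Dl.mpr ⟨lev_club ((T_lev n z hz t).mpr ⟨ht, htz.le⟩) h.1 hut.le, hut⟩
  exact := fun z hz t ht => ((T_lev (n + 1) z hz t).mp (mem_Dl.mp ht).1).1
  mid := fun z hz => by
    rcases le_or_gt n (stop z) with h | h
    · exact mid_low hz h
    · exact mid_high hz h
  top := fun z hz hall => by
    rcases le_or_gt n (stop z) with h | h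
    · exact top_low hz h hall
    · intro x hx hxz
      apply hall
      change x ∈ Dl (n + 1) z
      rw [Dl_high hz h, mem_Dl_T hz]
      exact ⟨hx, hxz⟩
  bot := fun z hz hall => by
    rcases le_or_gt n (stop z) with h | h
    · exact bot_low hz h hall
    · intro x hx hxz
      apply hall
      change x ∈ Dl (n + 1) z
      rw [Dl_high hz h, mem_Dl_T hz]
      exact ⟨hx, hxz⟩
  attR := fun y hy N => by
    obtain ⟨w, hw, h1, h2, h3, h4, h5, h6⟩ := book_fin hy true N
    obtain ⟨h7, h8⟩ := att_R (s := w) (by omega) h4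
    rw [h6] at h7 h8
    rw [h5] at h8
    exact ⟨w, hw, h1, h2, h3, h4, h7, h8⟩
  attL := fun y hy N => by
    obtain ⟨w, hw, h1, h2, h3, h4, h5, h6⟩ := book_fin hy false N
    obtain ⟨h7, h8⟩ := att_L (s := w) (by omega) h4
    rw [h6] at h7 h8
    rw [h5] at h8
    exact ⟨w, hw, h1, h2, h3, h4, h7, h8⟩

/-- Limit level bookkeeping. -/
theorem book_lim {a : ℕ} (ha : a ∈ Tw) (b : Bool) (N : ℕ) :
    ∃ w ∈ Tw, N < w ∧ a < w ∧ side w = b ∧ par w = a ∧
      ∀ u ∈ Tw, u < w → u ∈ Dl (stop w + 1) w := by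
  -- the index of `a` in the limit
  have hlow : ix a a ≤ a := ix_le_self (T_self (ha a))
  have hstab : ∀ M, ix M a ≤ M → ix M a = ix a a := by
    intro M hM
    rcases le_total a M with h | h
    · obtain ⟨d, hd⟩ := Nat.exists_eq_add_of_le h
      rw [hd]
      exact (low_stable (ha a) hlow d).2.2
    · obtain ⟨d, hd⟩ := Nat.exists_eq_add_of_le h
      have := (low_stable (ha M) hM d).2.2
      rw [← hd] at this
      exact this.symm
  obtain ⟨j, hj⟩ : ∃ j, j = 2 * Nat.pair (ix a a) (2 * (N + a + 1) + b.toNat) := ⟨_, rfl⟩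
  have hpair := Nat.right_le_pair (ix a a) (2 * (N + a + 1) + b.toNat)
  obtain ⟨w, hw, hix⟩ := exists_ix j j
  have hwT : w ∈ Tw := low_Tw hw hix.le
  have hle := ix_le_self (T_self hw)
  have hsj : stop w ≤ j := by
    by_contra hcon
    have h1 := (stop_spec w).2.1 j (by omega)
    have h2 := stopc_false h1
    omega
  have hixs : ix (stop w) w ≤ stop w := ix_stop_low (hwT (stop w + 1)) (by omega)
  have hixe : ix (stop w) w = j := by
    obtain ⟨d, hd⟩ := Nat.exists_eq_add_of_le hsj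
    have := (low_stable (hwT (stop w)) hixs d).2.2
    rw [← hd, hix] at this
    exact this.symm
  have hcode : code w = Nat.pair (ix a a) (2 * (N + a + 1) + b.toNat) := by
    rw [code, hixe]; omega
  have haw : a < w := by omega
  refine ⟨w, hwT, by omega, haw, ?_, ?_, ?_⟩
  · rw [side, hcode]
    exact bool_code b _ _
  · have h1 : a ∈ ages (lev (stop w + 1) w) :=
      (ha (stop w + 1)).2 w (hwT (stop w)) haw.le
    have h2 : ix (stop w) a < ix (stop w) w := ix_lt (ha _) (hwT _) haw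
    have h3 : ix (stop w) a ≤ stop w := by omega
    have h4 : ix (stop w + 1) a = ix (stop w) a := (low_stable (ha (stop w)) h3 1).2.2
    have h5 := hstab (stop w + 1) (by omega)
    rw [par, hcode, Nat.unpair_pair]
    simp only
    rw [← h5]
    exact Dl_pos h1 haw
  · intro u hu huw
    exact mem_Dl.mpr ⟨(hu (stop w + 1)).2 w (hwT (stop w)) huw.le, huw⟩

theorem lim_R {a : ℕ} (ha : a ∈ Tw) (N : ℕ) : ∃ w ∈ Tw, N < w ∧ toRO a < toRO w ∧
    ∀ u ∈ Tw, u < w → ¬ (toRO a < toRO u ∧ toRO u < toRO w) := by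
  obtain ⟨w, hw, h1, h2, h3, h4, h5⟩ := book_lim ha true N
  obtain ⟨h6, h7⟩ := att_R (s := w) (by omega) h3
  rw [h4] at h6 h7
  exact ⟨w, hw, h1, h6, fun u hu huw => h7 u (h5 u hu huw)⟩

theorem lim_L {a : ℕ} (ha : a ∈ Tw) (N : ℕ) : ∃ w ∈ Tw, N < w ∧ toRO w < toRO a := by
  obtain ⟨w, hw, h1, h2, h3, h4, h5⟩ := book_lim ha false N
  obtain ⟨h6, h7⟩ := att_L (s := w) (by omega) h3
  rw [h4] at h6
  exact ⟨w, hw, h1, h6⟩

/-- The tower. -/
theorem exists_tower : ∃ (π : ℕ → ℕ → ℕ) (c : ℕ → ℕ → ℤ), Tower toRO T π c := by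
  have h : ∀ n, ∃ (π : ℕ → ℕ) (c : ℕ → ℤ), Fib toRO (T n) (T (n + 1)) π c :=
    fun n => (level n).one_level
  choose π c hπ using h
  exact ⟨π, c, toRO_inj, fun _ => trivial, hπ⟩

/-- The order type. -/
theorem exists_iso : ∃ f : ℕ ≃ Lex (ℚ × Lex (ℕᵒᵈ →₀ ℤ)), ∀ a b : ℕ, ltR a b ↔ f a < f b := by
  obtain ⟨π, c, h⟩ := exists_tower
  refine h.exists_iso ⟨0, fun n => (zero_T n).1⟩ ?_ ?_ ?_
  · intro a b ha hb hab
    obtain ⟨w, hw, h1, h2, h3⟩ := lim_R (a := a) ha b
    refine ⟨w, hw, h2, ?_⟩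
    have h4 := h3 b hb h1
    push Not at h4
    exact lt_of_le_of_ne (h4 hab) (fun e => by have := toRO_inj e; omega)
  · intro a ha
    obtain ⟨w, hw, _, h2, _⟩ := lim_R (a := a) ha 0
    exact ⟨w, hw, h2⟩
  · intro a ha
    obtain ⟨w, hw, _, h2⟩ := lim_L (a := a) ha 0
    exact ⟨w, hw, h2⟩

/-- Densely ordered sets are sparse. -/
theorem exists_rho : ∃ ρ : ℕ → ℕ, (∀ x, ρ x ∈ Tw ∧ ρ x ≤ x) ∧
    ∀ S : Set ℕ, (∀ a ∈ S, ∀ b ∈ S, ltR a b → ∃ d ∈ S, ltR a d ∧ ltR d b) →
      Set.InjOn ρ S := by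
  obtain ⟨π, c, h⟩ := exists_tower
  exact ⟨h.rho, fun x => ⟨fun n => h.rho_mem x n, h.rho_le x⟩, fun S hS => h.rho_injOn S hS⟩

end Pool.Agent.LibZetaOmega
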