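import Mathlib
import Pool.Agent.LibZetaOmega.Order

set_option autoImplicit false

namespace Pool.Agent.LibZetaOmega

open Nat.Partrec (Code)

section generic

variable {α β γ : Type*} [Primcodable α] [Primcodable β] [Primcodable γ]

theorem pp_ex {f : α → List β} {R : β → α → Prop} (hf : Primrec f)
    (hR : PrimrecPred fun p : β × α => R p.1 p.2) : PrimrecPred fun a => ∃ b ∈ f a, R b a :=
  PrimrecRel.comp (PrimrecRel.exists_mem_list hR) hf Primrec.id

theorem pp_all {f : α → List β} {R : β → α → Prop} (hf : Primrec f)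
    (hR : PrimrecPred fun p : β × α => R p.1 p.2) : PrimrecPred fun a => ∀ b ∈ f a, R b a :=
  PrimrecRel.comp (PrimrecRel.forall_mem_list hR) hf Primrec.id

theorem pp_exlt {f : α → ℕ} {R : ℕ → α → Prop} (hf : Primrec f)
    (hR : PrimrecPred fun p : ℕ × α => R p.1 p.2) : PrimrecPred fun a => ∃ b, b < f a ∧ R b a :=
  (pp_ex (Primrec.list_range.comp hf) hR).of_eq (fun a => by simp)

theorem p_filter {f : α → List β} {R : β → α → Prop} [∀ b a, Decidable (R b a)]
    (hf : Primrec f) (hR : PrimrecPred fun p : β × α => R p.1 p.2) :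
    Primrec fun a => (f a).filter (fun b => decide (R b a)) :=
  (Primrec₂.comp (f := fun (L : List β) a => L.filter (fun b => decide (R b a)))
    (PrimrecRel.listFilter (R := R) hR) hf Primrec.id)

end generic

theorem prim_tr : PrimrecPred fun a : ℕ × List ℕ × ℕ => tr a.1 a.2.1 a.2.2 := by
  unfold tr
  apply pp_exlt Primrec.fst
  apply pp_ex (f := fun p : ℕ × ℕ × List ℕ × ℕ => p.2.2.1)
    (R := fun z (p : ℕ × ℕ × List ℕ × ℕ) =>
      Code.evaln p.2.1 (Denumerable.ofNat Code p.2.2.2.unpair.1)
        (Nat.pair p.2.2.2.unpair.2 p.1) = some z)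
  · exact Primrec.fst.comp (Primrec.snd.comp Primrec.snd)
  · -- context q = (z, y, b, V, e)
    have he : Primrec fun q : ℕ × ℕ × ℕ × List ℕ × ℕ => q.2.2.2.2 :=
      Primrec.snd.comp (Primrec.snd.comp (Primrec.snd.comp Primrec.snd))
    have hb : Primrec fun q : ℕ × ℕ × ℕ × List ℕ × ℕ => q.2.2.1 :=
      Primrec.fst.comp (Primrec.snd.comp Primrec.snd)
    have hy : Primrec fun q : ℕ × ℕ × ℕ × List ℕ × ℕ => q.2.1 :=
      Primrec.fst.comp Primrec.snd
    have hu := Primrec.unpair.comp he
    have hcode : Primrec fun q : ℕ × ℕ × ℕ × List ℕ × ℕ =>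
        (Denumerable.ofNat Code q.2.2.2.2.unpair.1) :=
      (Primrec.ofNat Code).comp (Primrec.fst.comp hu)
    have hin : Primrec fun q : ℕ × ℕ × ℕ × List ℕ × ℕ =>
        Nat.pair q.2.2.2.2.unpair.2 q.2.1 :=
      Primrec₂.natPair.comp (Primrec.snd.comp hu) hy
    have hev := Nat.Partrec.Code.primrec_evaln.comp ((hb.pair hcode).pair hin)
    exact Primrec.eq.comp hev (Primrec.option_some.comp Primrec.fst)

theorem prim_safe : Primrec fun a : ℕ × List ℕ × (ℕ × List ℕ) => safe a.1 a.2.1 a.2.2 := by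
  have h : PrimrecPred fun a : ℕ × List ℕ × (ℕ × List ℕ) => ∀ e ∈ a.2.2.2, ¬ tr a.1 a.2.1 e := by
    apply pp_all (f := fun a : ℕ × List ℕ × (ℕ × List ℕ) => a.2.2.2)
      (R := fun e (a : ℕ × List ℕ × (ℕ × List ℕ)) => ¬ tr a.1 a.2.1 e)
    · exact Primrec.snd.comp (Primrec.snd.comp Primrec.snd)
    · apply PrimrecPred.not
      exact prim_tr.comp ((Primrec.fst.comp Primrec.snd).pair
        ((Primrec.fst.comp (Primrec.snd.comp Primrec.snd)).pair Primrec.fst))
  exact h.decide

/-- One step of the recursion defining `F`. -/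
def Fstep (n : ℕ) (i : ℕ × List ℕ) (L IH : List (ℕ × List ℕ)) : List (ℕ × List ℕ) :=
  if L.length ≤ n ∨ L.length % 2 = 0 then
    (i.1, (List.range ((IH.drop (IH.findIdx (safe L.length i.2))).length - n)).filter
      (fun e => decide (¬ tr L.length i.2 e))) ::
      (IH.drop (IH.findIdx (safe L.length i.2)))
  else IH

theorem F_eq_rec (n : ℕ) (L : List (ℕ × List ℕ)) :
    F n L = List.recOn L [] (fun i L IH => Fstep n i L IH) := by
  induction L with
  | nil => rfl
  | cons i L ih =>
    obtain ⟨c, V⟩ := i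
    rw [F, ih]
    rfl

abbrev Ctx := ℕ × (ℕ × List ℕ) × List (ℕ × List ℕ) × List (ℕ × List ℕ)

theorem prim_Fstep : Primrec fun a : Ctx => Fstep a.1 a.2.1 a.2.2.1 a.2.2.2 := by
  have hn : Primrec fun a : Ctx => a.1 := Primrec.fst
  have hi : Primrec fun a : Ctx => a.2.1 := Primrec.fst.comp Primrec.snd
  have hL : Primrec fun a : Ctx => a.2.2.1 := Primrec.fst.comp (Primrec.snd.comp Primrec.snd)
  have hIH : Primrec fun a : Ctx => a.2.2.2 := Primrec.snd.comp (Primrec.snd.comp Primrec.snd)
  have hlen : Primrec fun a : Ctx => a.2.2.1.length := Primrec.list_length.comp hL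
  have hidx : Primrec fun a : Ctx => a.2.2.2.findIdx (safe a.2.2.1.length a.2.1.2) := by
    apply Primrec.list_findIdx hIH
    exact prim_safe.comp (((hlen.comp Primrec.fst)).pair
      (((Primrec.snd.comp (hi.comp Primrec.fst))).pair Primrec.snd))
  have hG : Primrec fun a : Ctx => a.2.2.2.drop (a.2.2.2.findIdx (safe a.2.2.1.length a.2.1.2)) :=
    Primrec.list_drop.comp hidx hIH
  have hrange : Primrec fun a : Ctx => List.range
      ((a.2.2.2.drop (a.2.2.2.findIdx (safe a.2.2.1.length a.2.1.2))).length - a.1) :=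
    Primrec.list_range.comp (Primrec.nat_sub.comp (Primrec.list_length.comp hG) hn)
  have hfil : Primrec fun a : Ctx => (List.range
      ((a.2.2.2.drop (a.2.2.2.findIdx (safe a.2.2.1.length a.2.1.2))).length - a.1)).filter
      (fun e => decide (¬ tr a.2.2.1.length a.2.1.2 e)) := by
    apply p_filter (R := fun e (a : Ctx) => ¬ tr a.2.2.1.length a.2.1.2 e) hrange
    apply PrimrecPred.not
    exact prim_tr.comp ((hlen.comp Primrec.snd).pair
      ((Primrec.snd.comp (hi.comp Primrec.snd)).pair Primrec.fst))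
  have hcond : PrimrecPred fun a : Ctx => a.2.2.1.length ≤ a.1 ∨ a.2.2.1.length % 2 = 0 := by
    apply PrimrecPred.or
    · exact Primrec.nat_le.comp hlen hn
    · exact Primrec.eq.comp (Primrec.nat_mod.comp hlen (Primrec.const 2)) (Primrec.const 0)
  exact Primrec.ite hcond (Primrec.list_cons.comp ((Primrec.fst.comp hi).pair hfil) hG) hIH

theorem prim_F : Primrec₂ F := by
  have h : Primrec fun a : ℕ × List (ℕ × List ℕ) =>
      (List.recOn a.2 [] (fun i L IH => Fstep a.1 i L IH) : List (ℕ × List ℕ)) := by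
    apply Primrec.list_rec (f := fun a : ℕ × List (ℕ × List ℕ) => a.2) (g := fun _ => [])
      (h := fun a p => Fstep a.1 p.1 p.2.1 p.2.2) Primrec.snd (Primrec.const _)
    exact prim_Fstep.comp ((Primrec.fst.comp Primrec.fst).pair Primrec.snd)
  exact h.of_eq (fun a => (F_eq_rec a.1 a.2).symm)

theorem prim_lev : Primrec₂ lev := by
  have h0 : Primrec fun s : ℕ => (List.range (s + 1)).reverse.map (fun t => (t, List.range (t + 1))) := by
    apply Primrec.list_map
    · exact Primrec.list_reverse.comp (Primrec.list_range.comp Primrec.succ)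
    · exact Primrec.snd.pair (Primrec.list_range.comp (Primrec.succ.comp Primrec.snd))
  have h : Primrec₂ fun (s : ℕ) (n : ℕ) => (Nat.rec
      ((List.range (s + 1)).reverse.map (fun t => (t, List.range (t + 1))))
      (fun n IH => F n IH) n : List (ℕ × List ℕ)) := by
    apply Primrec.nat_rec (g := fun _ p => F p.1 p.2) h0
    exact prim_F.comp (Primrec.fst.comp Primrec.snd) (Primrec.snd.comp Primrec.snd)
  refine (h.comp Primrec.snd Primrec.fst).of_eq ?_
  rintro ⟨n, s⟩
  simp only
  induction n with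
  | zero => rfl
  | succ n ih => rw [lev, ← ih]

theorem prim_ages : Primrec ages :=
  Primrec.list_map Primrec.id (Primrec.fst.comp Primrec.snd)

theorem prim_Dl : Primrec₂ Dl := by
  have : Primrec fun a : ℕ × ℕ => (ages (lev a.1 a.2)).filter (fun t => decide (t < a.2)) := by
    apply p_filter (R := fun t (a : ℕ × ℕ) => t < a.2)
    · exact prim_ages.comp (prim_lev.comp Primrec.fst Primrec.snd)
    · exact Primrec.nat_lt.comp Primrec.fst (Primrec.snd.comp Primrec.snd)
  exact this

theorem prim_ix : Primrec fun a : ℕ × ℕ => (lev a.1 a.2).tail.length :=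
  Primrec.list_length.comp (Primrec.list_tail.comp (prim_lev.comp Primrec.fst Primrec.snd))

end Pool.Agent.LibZetaOmega
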