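import Mathlib
import Pool.Agent.LibZetaOmega.Prim

set_option autoImplicit false

namespace Pool.Agent.LibZetaOmega

theorem prim_stopc : Primrec₂ stopc := by
  have hix : Primrec fun a : ℕ × ℕ => (lev a.2 a.1).tail.length :=
    prim_ix.comp (Primrec.snd.pair Primrec.fst)
  have h : PrimrecPred fun a : ℕ × ℕ => ix a.2 a.1 ≤ a.2 ∨ ix a.2 a.1 % 2 = 1 := by
    apply PrimrecPred.or
    · exact Primrec.nat_le.comp hix Primrec.snd
    · exact Primrec.eq.comp (Primrec.nat_mod.comp hix (Primrec.const 2)) (Primrec.const 1)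
  exact h.decide

theorem prim_stop : Primrec stop :=
  Primrec.list_findIdx (Primrec.list_range.comp Primrec.succ) prim_stopc

theorem prim_code : Primrec code := by
  have hix : Primrec fun s : ℕ => (lev (stop s) s).tail.length :=
    prim_ix.comp (prim_stop.pair Primrec.id)
  exact Primrec.nat_div.comp hix (Primrec.const 2)

theorem prim_side : Primrec side := by
  have h : PrimrecPred fun s : ℕ => (code s).unpair.2 % 2 = 1 :=
    Primrec.eq.comp (Primrec.nat_mod.comp (Primrec.snd.comp (Primrec.unpair.comp prim_code))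
      (Primrec.const 2)) (Primrec.const 1)
  exact h.decide

theorem prim_par : Primrec par :=
  (Primrec.list_getD 0).comp
    (Primrec.list_reverse.comp (prim_Dl.comp (Primrec.succ.comp prim_stop) Primrec.id))
    (Primrec.fst.comp (Primrec.unpair.comp prim_code))

abbrev CtxCut := List ℕ × List ℕ × ℕ × Bool

theorem prim_cut : Primrec fun a : CtxCut => cut a.1 a.2.1 a.2.2.1 a.2.2.2 := by
  have h : Primrec fun a : CtxCut => a.2.1.filter
      (fun x => decide (a.1.idxOf x < a.1.idxOf a.2.2.1 ∨ (x = a.2.2.1 ∧ a.2.2.2 = true))) := by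
    apply p_filter (R := fun x (a : CtxCut) =>
      a.1.idxOf x < a.1.idxOf a.2.2.1 ∨ (x = a.2.2.1 ∧ a.2.2.2 = true))
    · exact Primrec.fst.comp Primrec.snd
    · have hO : Primrec fun p : ℕ × CtxCut => p.2.1 := Primrec.fst.comp Primrec.snd
      have hv : Primrec fun p : ℕ × CtxCut => p.2.2.2.1 :=
        Primrec.fst.comp (Primrec.snd.comp (Primrec.snd.comp Primrec.snd))
      have hr : Primrec fun p : ℕ × CtxCut => p.2.2.2.2 :=
        Primrec.snd.comp (Primrec.snd.comp (Primrec.snd.comp Primrec.snd))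
      apply PrimrecPred.or
      · exact Primrec.nat_lt.comp (Primrec.list_idxOf.comp Primrec.fst hO)
          (Primrec.list_idxOf.comp hv hO)
      · apply PrimrecPred.and
        · exact Primrec.eq.comp Primrec.fst hv
        · exact Primrec.eq.comp hr (Primrec.const true)
  exact h

abbrev CtxSeg := List ℕ × List ℕ × List ℕ × List ℕ

theorem prim_seg : Primrec fun a : CtxSeg => seg a.1 a.2.1 a.2.2.1 a.2.2.2 := by
  have h : Primrec fun a : CtxSeg => a.2.1.filter
      (fun x => decide ((∀ c ∈ a.2.2.1, a.1.idxOf c ≤ a.1.idxOf x) ∧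
        ∀ b ∈ a.2.2.2, a.1.idxOf x ≤ a.1.idxOf b)) := by
    apply p_filter (R := fun x (a : CtxSeg) => (∀ c ∈ a.2.2.1, a.1.idxOf c ≤ a.1.idxOf x) ∧
        ∀ b ∈ a.2.2.2, a.1.idxOf x ≤ a.1.idxOf b)
    · exact Primrec.fst.comp Primrec.snd
    · apply PrimrecPred.and
      · apply pp_all (f := fun p : ℕ × CtxSeg => p.2.2.2.1)
          (R := fun c (p : ℕ × CtxSeg) => p.2.1.idxOf c ≤ p.2.1.idxOf p.1)
        · exact Primrec.fst.comp (Primrec.snd.comp (Primrec.snd.comp Primrec.snd))
        · have hO : Primrec fun q : ℕ × ℕ × CtxSeg => q.2.2.1 :=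
            Primrec.fst.comp (Primrec.snd.comp Primrec.snd)
          exact Primrec.nat_le.comp (Primrec.list_idxOf.comp Primrec.fst hO)
            (Primrec.list_idxOf.comp (Primrec.fst.comp Primrec.snd) hO)
      · apply pp_all (f := fun p : ℕ × CtxSeg => p.2.2.2.2)
          (R := fun c (p : ℕ × CtxSeg) => p.2.1.idxOf p.1 ≤ p.2.1.idxOf c)
        · exact Primrec.snd.comp (Primrec.snd.comp (Primrec.snd.comp Primrec.snd))
        · have hO : Primrec fun q : ℕ × ℕ × CtxSeg => q.2.2.1 :=
            Primrec.fst.comp (Primrec.snd.comp Primrec.snd)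
          exact Primrec.nat_le.comp (Primrec.list_idxOf.comp (Primrec.fst.comp Primrec.snd) hO)
            (Primrec.list_idxOf.comp Primrec.fst hO)
  exact h

theorem prim_young : Primrec young := by
  have h : Primrec fun L : List ℕ => L.foldr (fun b s => max b s) 0 :=
    Primrec.list_foldr (f := fun L : List ℕ => L) (g := fun _ => 0)
      (h := fun _ p => max p.1 p.2) Primrec.id (Primrec.const 0)
      (Primrec.nat_max.comp (Primrec.fst.comp Primrec.snd) (Primrec.snd.comp Primrec.snd))
  exact h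

/-- The complement part. -/
def Bl (Dn1 A : List ℕ) : List ℕ := Dn1.filter (fun x => decide (x ∉ A))

theorem prim_Bl : Primrec₂ Bl := by
  have h : Primrec fun a : List ℕ × List ℕ => a.1.filter (fun x => decide (x ∉ a.2)) := by
    apply p_filter (R := fun x (a : List ℕ × List ℕ) => x ∉ a.2)
    · exact Primrec.fst
    · apply PrimrecPred.not
      have h1 : PrimrecPred fun p : ℕ × List ℕ × List ℕ => ∃ b ∈ p.2.2, b = p.1 := by
        apply pp_ex (f := fun p : ℕ × List ℕ × List ℕ => p.2.2)
          (R := fun b (p : ℕ × List ℕ × List ℕ) => b = p.1)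
        · exact Primrec.snd.comp Primrec.snd
        · exact Primrec.eq.comp Primrec.fst (Primrec.fst.comp Primrec.snd)
      exact h1.of_eq (fun p => by simp)
  exact h

theorem pp_mem {α : Type*} [Primcodable α] {f : α → ℕ} {g : α → List ℕ} (hf : Primrec f)
    (hg : Primrec g) : PrimrecPred fun a => f a ∈ g a := by
  have h1 : PrimrecPred fun a => ∃ b ∈ g a, b = f a := by
    apply pp_ex (f := g) (R := fun b a => b = f a) hg
    exact Primrec.eq.comp Primrec.fst (hf.comp Primrec.snd)
  exact h1.of_eq (fun p => by simp)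

abbrev CtxNext := List ℕ × List ℕ × List ℕ × List ℕ

theorem prim_nextA : Primrec fun a : CtxNext => nextA a.1 a.2.1 a.2.2.1 a.2.2.2 := by
  have hO : Primrec fun a : CtxNext => a.1 := Primrec.fst
  have hDn : Primrec fun a : CtxNext => a.2.1 := Primrec.fst.comp Primrec.snd
  have hD1 : Primrec fun a : CtxNext => a.2.2.1 := Primrec.fst.comp (Primrec.snd.comp Primrec.snd)
  have hA : Primrec fun a : CtxNext => a.2.2.2 := Primrec.snd.comp (Primrec.snd.comp Primrec.snd)
  have hB : Primrec fun a : CtxNext => Bl a.2.2.1 a.2.2.2 := prim_Bl.comp hD1 hA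
  have hv : Primrec fun a : CtxNext => young (seg a.1 a.2.1 a.2.2.2 (Bl a.2.2.1 a.2.2.2)) :=
    prim_young.comp (prim_seg.comp (hO.pair (hDn.pair (hA.pair hB))))
  have hr : PrimrecPred fun a : CtxNext =>
      (young (seg a.1 a.2.1 a.2.2.2 (Bl a.2.2.1 a.2.2.2)) ∈ a.2.2.2 ∨
      (young (seg a.1 a.2.1 a.2.2.2 (Bl a.2.2.1 a.2.2.2)) ∉ Bl a.2.2.1 a.2.2.2 ∧
      side (young (seg a.1 a.2.1 a.2.2.2 (Bl a.2.2.1 a.2.2.2))) = true)) := by
    apply PrimrecPred.or (pp_mem hv hA)
    apply PrimrecPred.and (PrimrecPred.not (pp_mem hv hB))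
    exact Primrec.eq.comp (prim_side.comp hv) (Primrec.const true)
  have hcut := prim_cut.comp (hO.pair (hDn.pair (hv.pair hr.decide)))
  have h := Primrec.ite (Primrec.eq.comp hB (Primrec.const [])) hDn
    (Primrec.ite (Primrec.eq.comp hA (Primrec.const [])) (Primrec.const []) hcut)
  exact h

theorem prim_topA : Primrec₂ topA :=
  prim_cut.comp (Primrec.fst.pair ((prim_Dl.comp (Primrec.succ.comp (prim_stop.comp Primrec.snd))
    Primrec.snd).pair ((prim_par.comp Primrec.snd).pair (prim_side.comp Primrec.snd))))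

theorem prim_AA : Primrec₂ fun (a : List ℕ × ℕ) (i : ℕ) => AA a.1 a.2 i := by
  have h : Primrec₂ fun (a : List ℕ × ℕ) (i : ℕ) => (Nat.rec (topA a.1 a.2)
      (fun i IH => nextA a.1 (Dl (stop a.2 - i) a.2) (Dl (stop a.2 - i + 1) a.2) IH) i :
        List ℕ) := by
    apply Primrec.nat_rec (g := fun (a : List ℕ × ℕ) (p : ℕ × List ℕ) =>
      nextA a.1 (Dl (stop a.2 - p.1) a.2) (Dl (stop a.2 - p.1 + 1) a.2) p.2) prim_topA
    have hs : Primrec fun q : (List ℕ × ℕ) × ℕ × List ℕ => q.1.2 := Primrec.snd.comp Primrec.fst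
    have hd : Primrec fun q : (List ℕ × ℕ) × ℕ × List ℕ => stop q.1.2 - q.2.1 :=
      Primrec.nat_sub.comp (prim_stop.comp hs) (Primrec.fst.comp Primrec.snd)
    exact prim_nextA.comp ((Primrec.fst.comp Primrec.fst).pair ((prim_Dl.comp hd hs).pair
      ((prim_Dl.comp (Primrec.succ.comp hd) hs).pair (Primrec.snd.comp Primrec.snd))))
  refine h.of_eq ?_
  intro a i
  induction i with
  | zero => rfl
  | succ i ih => rw [AA, ← ih]

theorem prim_ins : Primrec₂ ins := by
  have hA : Primrec fun a : List ℕ × ℕ => AA a.1 a.2 (stop a.2 + 1) :=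
    prim_AA.comp Primrec.id (Primrec.succ.comp (prim_stop.comp Primrec.snd))
  have hk : Primrec fun a : List ℕ × ℕ =>
      a.1.findIdx (fun x => decide (x ∉ AA a.1 a.2 (stop a.2 + 1))) := by
    apply Primrec.list_findIdx (p := fun (a : List ℕ × ℕ) x =>
      decide (x ∉ AA a.1 a.2 (stop a.2 + 1))) Primrec.fst
    exact (PrimrecPred.not (pp_mem (f := fun q : (List ℕ × ℕ) × ℕ => q.2)
      (g := fun q => AA q.1.1 q.1.2 (stop q.1.2 + 1)) Primrec.snd (hA.comp Primrec.fst))).decide
  exact Primrec.list_append.comp (Primrec.list_take.comp hk Primrec.fst)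
    (Primrec.list_cons.comp Primrec.snd (Primrec.list_drop.comp hk Primrec.fst))

theorem prim_OO : Primrec OO := by
  have h : Primrec fun s : ℕ => (Nat.rec [0] (fun s IH => ins IH (s + 1)) s : List ℕ) := by
    apply Primrec.nat_rec₁ (f := fun s IH => ins IH (s + 1))
    exact prim_ins.comp Primrec.snd (Primrec.succ.comp Primrec.fst)
  refine h.of_eq ?_
  intro s
  induction s with
  | zero => rfl
  | succ s ih => rw [OO, ← ih]

theorem prim_ltR : PrimrecPred fun a : ℕ × ℕ => ltR a.1 a.2 := by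
  have hO : Primrec fun a : ℕ × ℕ => OO (max a.1 a.2) :=
    prim_OO.comp (Primrec.nat_max.comp Primrec.fst Primrec.snd)
  exact Primrec.nat_lt.comp (Primrec.list_idxOf.comp Primrec.fst hO)
    (Primrec.list_idxOf.comp Primrec.snd hO)

theorem comp_ltR : ComputablePred fun a : ℕ × ℕ => ltR a.1 a.2 := by
  obtain ⟨h1, h2⟩ := prim_ltR
  exact ⟨h1, h2.to_comp⟩

end Pool.Agent.LibZetaOmega
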