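import Mathlib
import Pool.Agent.LibZetaOmega.Book
import Pool.Agent.LibZetaOmega.Prim2

set_option autoImplicit false

namespace Pool.Agent.LibZetaOmega

open Nat.Partrec (Code)
open Encodable

/-- The encoding coming from the `Primcodable` instance. -/
def en {α : Type*} [Primcodable α] (a : α) : ℕ := @encode α Primcodable.toEncodable a

theorem en_nat (a : ℕ) : en a = a := rfl

theorem prim_en {α : Type*} [Primcodable α] : Primrec (en : α → ℕ) := Primrec.encode

theorem exists_code {α : Type*} [Primcodable α] (g : α → ℕ →. ℕ) (hg : Partrec₂ g) :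
    ∃ c : ℕ, ∀ (a : α) (y z : ℕ), z ∈ Code.eval (Denumerable.ofNat Code c)
      (Nat.pair (en a) y) ↔ z ∈ g a y := by
  obtain ⟨c0, hc0⟩ := Code.exists_code.mp hg
  refine ⟨encode c0, ?_⟩
  intro a y z
  rw [Denumerable.ofNat_encode, hc0]
  have h1 : (Nat.pair (en a) y) = encode (a, y) := rfl
  rw [h1]
  beta_reduce
  rw [encodek]
  simp

theorem Tr_code {α : Type*} [Primcodable α] (n : ℕ) {g : α → ℕ →. ℕ} {c : ℕ}
    (hc : ∀ (a : α) (y z : ℕ), z ∈ Code.eval (Denumerable.ofNat Code c)
      (Nat.pair (en a) y) ↔ z ∈ g a y) (a : α) :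
    Tr (n + 1) (Nat.pair c (en a)) ↔ ∃ y z, z ∈ g a y ∧ ¬ Tr n z := by
  rw [Tr]
  simp only [Nat.unpair_pair, hc]

/-- The arithmetical predicates in `k` variables. -/
def AF (k : ℕ) : Set ((Fin k → ℕ) → Prop) :=
  {P | ∃ n c, ∀ v, P v ↔ Tr (n + 1) (Nat.pair c (en v))}

theorem AF_comp (k : ℕ) (P : (Fin k → ℕ) → Prop) (hP : ComputablePred P) : P ∈ AF k := by
  have hre := hP.to_re
  have hg : Partrec₂ (fun (v : Fin k → ℕ) (_ : ℕ) =>
      (Part.assert (P v) fun _ => Part.some ()).map (fun _ => 0)) :=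
    Partrec.map (hre.comp Computable.fst) (Computable.const 0).to₂
  obtain ⟨c, hc⟩ := exists_code _ hg
  refine ⟨0, c, fun v => ?_⟩
  have h := Tr_code 0 hc v
  rw [h]
  simp [Tr]

theorem neg_code (n c : ℕ) : ∃ c', ∀ a, Tr (n + 2) (Nat.pair c' a) ↔ ¬ Tr (n + 1) (Nat.pair c a) := by
  have hcomp : Computable₂ (fun (a : ℕ) (_ : ℕ) => Nat.pair c a) :=
    (Primrec₂.natPair.comp (Primrec.const c) Primrec.fst).to_comp
  obtain ⟨c', hc'⟩ := exists_code (α := ℕ) (fun (a : ℕ) (_ : ℕ) => Part.some (Nat.pair c a)) hcomp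
  refine ⟨c', fun a => ?_⟩
  have h := Tr_code (α := ℕ) (n + 1) hc' a
  rw [en_nat] at h
  rw [h]
  simp

theorem AF_not (k : ℕ) (P : (Fin k → ℕ) → Prop) (hP : P ∈ AF k) : (fun v => ¬ P v) ∈ AF k := by
  obtain ⟨n, c, h⟩ := hP
  obtain ⟨c', hc'⟩ := neg_code n c
  refine ⟨n + 1, c', fun v => ?_⟩
  change ¬ P v ↔ _
  rw [hc', h]

theorem prim_cons (k : ℕ) : Primrec fun p : (Fin k → ℕ) × ℕ =>
    (Fin.cons p.2 p.1 : Fin (k + 1) → ℕ) := by
  rw [Primrec.fin_curry]
  apply Primrec₂.swap
  have h : Primrec₂ fun (i : Fin (k + 1)) (p : (Fin k → ℕ) × ℕ) =>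
      (Fin.cons p.2 p.1 : Fin (k + 1) → ℕ) i := by
    rw [Primrec.fin_curry₁]
    intro i
    refine Fin.cases ?_ (fun j => ?_) i
    · exact Primrec.snd
    · simp only [Fin.cons_succ]
      exact Primrec.fin_app.comp Primrec.fst (Primrec.const j)
  exact h

theorem AF_ex (k : ℕ) (P : (Fin (k + 1) → ℕ) → Prop) (hP : P ∈ AF (k + 1)) :
    (fun v : Fin k → ℕ => ∃ m : ℕ, P (Fin.cons m v : Fin (k + 1) → ℕ)) ∈ AF k := by
  obtain ⟨n, c, h⟩ := hP
  obtain ⟨c', hc'⟩ := neg_code n c
  have hcomp : Computable₂ (fun (v : Fin k → ℕ) (m : ℕ) =>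
      Nat.pair c' (en (Fin.cons m v : Fin (k + 1) → ℕ))) :=
    (Primrec₂.natPair.comp (Primrec.const c') (prim_en.comp (prim_cons k))).to_comp
  obtain ⟨c'', hc''⟩ := exists_code (fun (v : Fin k → ℕ) (m : ℕ) =>
      Part.some (Nat.pair c' (en (Fin.cons m v : Fin (k + 1) → ℕ)))) hcomp
  refine ⟨n + 2, c'', fun v => ?_⟩
  have h1 := Tr_code (n + 2) hc'' v
  change (∃ m : ℕ, P (Fin.cons m v : Fin (k + 1) → ℕ)) ↔ _
  rw [h1]
  simp only [Part.mem_some_iff, exists_eq_left, hc', h, not_not]

/-- The list coded by a number. -/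
def ly (y : ℕ) : List ℕ := ((decode y : Option (List ℕ))).getD []

theorem prim_ly : Primrec ly := Primrec.option_getD.comp Primrec.decode (Primrec.const [])

/-- The number of elements of the list coded by a number. -/
def cnt (y : ℕ) : ℕ := ((List.range y).filter (fun x => decide (x ∈ ly y))).length

theorem prim_cnt : Primrec cnt := by
  have h : Primrec fun y => (List.range y).filter (fun x => decide (x ∈ ly y)) := by
    apply p_filter (R := fun x y => x ∈ ly y) Primrec.list_range
    exact pp_mem Primrec.fst (prim_ly.comp Primrec.snd)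
  exact Primrec.list_length.comp h

theorem lt_encode : ∀ (l : List ℕ) (x : ℕ), x ∈ l → x < encode l := by
  intro l
  induction l with
  | nil => intro x hx; simp at hx
  | cons a l ih =>
    intro x hx
    rw [encode_list_cons]
    rcases List.mem_cons.mp hx with rfl | hx
    · have := Nat.left_le_pair (encode x) (encode l)
      simp only [encode_nat] at this ⊢
      omega
    · have h1 := Nat.right_le_pair (encode a) (encode l)
      have h2 := ih x hx
      omega

theorem growth (S : Set ℕ) (hinf : S.Infinite) (n c : ℕ)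
    (hS : ∀ x, x ∈ S ↔ Tr (n + 1) (Nat.pair c (en (fun _ : Fin 1 => x)))) :
    ∃ r ∈ Tw, (Tw ∩ Set.Iio r).ncard < (S ∩ Set.Iio r).ncard := by
  classical
  -- first code
  have hone : Primrec fun x : ℕ => (fun _ : Fin 1 => x) := by
    rw [Primrec.fin_curry]
    exact Primrec.fst
  have hg1 : Computable (fun p : ℕ × ℕ =>
      (((ly p.1)[p.2]?).map (fun x => Nat.pair c (en (fun _ : Fin 1 => x))))) := by
    have : Primrec (fun p : ℕ × ℕ =>
      (((ly p.1)[p.2]?).map (fun x => Nat.pair c (en (fun _ : Fin 1 => x))))) := by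
      apply Primrec.option_map
      · exact Primrec.list_getElem?.comp (prim_ly.comp Primrec.fst) Primrec.snd
      · exact Primrec₂.natPair.comp (Primrec.const c)
          (prim_en.comp (hone.comp Primrec.snd))
    exact this.to_comp
  obtain ⟨c1, hc1⟩ := exists_code (α := ℕ) (fun y i =>
    (((ly y)[i]?).map (fun x => Nat.pair c (en (fun _ : Fin 1 => x))) : Option ℕ)) hg1.ofOption
  have h1 : ∀ y, Tr (n + 2) (Nat.pair c1 y) ↔ ∃ x ∈ ly y, x ∉ S := by
    intro y
    have h := Tr_code (α := ℕ) (n + 1) hc1 y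
    rw [en_nat] at h
    rw [h]
    constructor
    · rintro ⟨i, z, hz, hTz⟩
      simp only [Part.mem_ofOption, Option.mem_def, Option.map_eq_some_iff] at hz
      obtain ⟨x, hx, rfl⟩ := hz
      exact ⟨x, List.mem_of_getElem? hx, fun hxS => hTz ((hS x).mp hxS)⟩
    · rintro ⟨x, hx, hxS⟩
      obtain ⟨i, hi⟩ := List.mem_iff_getElem?.mp hx
      refine ⟨i, _, ?_, fun h => hxS ((hS x).mpr h)⟩
      simp only [Part.mem_ofOption, Option.mem_def, Option.map_eq_some_iff]
      exact ⟨x, hi, rfl⟩
  -- second code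
  have hG : Primrec fun m : ℕ => Nat.pair m m + m + 1 :=
    Primrec.succ.comp (Primrec.nat_add.comp (Primrec₂.natPair.comp Primrec.id Primrec.id)
      Primrec.id)
  have hg2 : Computable (fun p : ℕ × ℕ =>
      (if Nat.pair p.1 p.1 + p.1 + 1 ≤ cnt p.2 then some (Nat.pair c1 p.2) else none :
        Option ℕ)) := by
    have : Primrec (fun p : ℕ × ℕ =>
      (if Nat.pair p.1 p.1 + p.1 + 1 ≤ cnt p.2 then some (Nat.pair c1 p.2) else none :
        Option ℕ)) := by
      apply Primrec.ite
      · exact Primrec.nat_le.comp (hG.comp Primrec.fst) (prim_cnt.comp Primrec.snd)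
      · exact Primrec.option_some.comp (Primrec₂.natPair.comp (Primrec.const c1) Primrec.snd)
      · exact Primrec.const none
    exact this.to_comp
  obtain ⟨c2, hc2⟩ := exists_code (α := ℕ) (fun m y =>
    ((if Nat.pair m m + m + 1 ≤ cnt y then some (Nat.pair c1 y) else none : Option ℕ) :
      Part ℕ)) hg2.ofOption
  have h2 : ∀ m, Tr (n + 3) (Nat.pair c2 m) := by
    intro m
    have h := Tr_code (α := ℕ) (n + 2) hc2 m
    rw [en_nat] at h
    rw [h]
    obtain ⟨F, hFS, hFc⟩ := hinf.exists_subset_card_eq (Nat.pair m m + m + 1)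
    have hly : ly (encode F.toList) = F.toList := by
      rw [ly, encodek]; rfl
    refine ⟨encode F.toList, Nat.pair c1 (encode F.toList), ?_, ?_⟩
    · have h3 : Nat.pair m m + m + 1 ≤ cnt (encode F.toList) := by
        rw [cnt, hly, ← hFc]
        have h4 : F ⊆ ((List.range (encode F.toList)).filter
            (fun x => decide (x ∈ F.toList))).toFinset := by
          intro x hx
          rw [List.mem_toFinset, List.mem_filter, List.mem_range]
          have hx' : x ∈ F.toList := Finset.mem_toList.mpr hx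
          exact ⟨lt_encode _ x hx', by simpa using hx⟩
        exact (Finset.card_le_card h4).trans (List.toFinset_card_le _)
      rw [if_pos h3]
      simp
    · rw [h1]
      rintro ⟨x, hx, hxS⟩
      rw [hly] at hx
      exact hxS (hFS (Finset.mem_toList.mp hx))
  -- the stage
  obtain ⟨m, hm⟩ : ∃ m, m = max c2 (n + 3) := ⟨_, rfl⟩
  have hc2m : c2 ≤ m := hm ▸ le_max_left _ _
  have hnm : n + 3 ≤ m := hm ▸ le_max_right _ _
  have hpm : Nat.pair c2 m ≤ Nat.pair m m := by
    rcases Nat.lt_or_eq_of_le hc2m with h | h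
    · exact (Nat.pair_lt_pair_left m h).le
    · rw [h]
  obtain ⟨j, hj⟩ : ∃ j, j = Nat.pair c2 m + (n + 3) := ⟨_, rfl⟩
  obtain ⟨r, hr, hix⟩ := exists_ix j j
  have hrT : r ∈ Tw := low_Tw hr hix.le
  refine ⟨r, hrT, ?_⟩
  have hixM : j ≤ ix (n + 3) r := by
    have h3 : ∀ d, ix (n + 3 + d) r ≤ ix (n + 3) r := by
      intro d
      induction d with
      | zero => exact le_rfl
      | succ d ih =>
        refine le_trans ?_ ih
        have h4 := (F_sublist (n + 3 + d) (lev (n + 3 + d) r)).length_le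
        simp only [ages, List.length_map] at h4
        have h5 : (lev (n + 3 + (d + 1)) r).length ≤ (lev (n + 3 + d) r).length := h4
        rw [lev_length (T_self (hrT _)), lev_length (T_self (hrT _))] at h5
        omega
    obtain ⟨d, hd⟩ := Nat.exists_eq_add_of_le (show n + 3 ≤ j by omega)
    have h4 := h3 d
    rw [← hd, hix] at h4
    exact h4
  obtain ⟨y, hyr, w, hw, hwe⟩ := truth_witness (n := n + 2) (e := Nat.pair c2 m)
    (hrT (n + 3)) (show Nat.pair c2 m + (n + 3) ≤ ix (n + 3) r by omega) (h2 m)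
  rw [Nat.unpair_pair] at hwe
  simp only at hwe
  have hwe' := (hc2 m y w).mp hwe
  simp only [Part.mem_ofOption, Option.mem_def] at hwe'
  by_cases hcond : Nat.pair m m + m + 1 ≤ cnt y
  swap
  · rw [if_neg hcond] at hwe'
    simp at hwe'
  rw [if_pos hcond] at hwe'
  simp only [Option.some.injEq] at hwe'
  rw [← hwe', h1] at hw
  push Not at hw
  -- lower bound
  have hlow : cnt y ≤ (S ∩ Set.Iio r).ncard := by
    have hnd : ((List.range y).filter (fun x => decide (x ∈ ly y))).Nodup :=
      List.nodup_range.filter _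
    rw [cnt, ← List.toFinset_card_of_nodup hnd, ← Set.ncard_coe_finset]
    apply Set.ncard_le_ncard
    · intro x hx
      simp only [List.coe_toFinset, List.mem_filter, List.mem_range, decide_eq_true_eq] at hx
      exact ⟨hw x hx.2, lt_trans hx.1 hyr⟩
    · exact (Set.finite_lt_nat r).subset (fun x hx => hx.2)
  -- upper bound
  have hup : (Tw ∩ Set.Iio r).ncard ≤ j := by
    have h3 : Tw ∩ Set.Iio r ⊆ ((ages (lev j r).tail).toFinset : Set ℕ) := by
      rintro x ⟨hx, hxr⟩
      have h4 : x ∈ ages (lev j r) := (T_lev j r hr x).mpr ⟨hx j, (Set.mem_Iio.mp hxr).le⟩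
      rw [lev_eq_T hr] at h4
      simp only [ages, List.map_cons, List.mem_cons] at h4
      rcases h4 with h4 | h4
      · have := Set.mem_Iio.mp hxr; omega
      · simpa [ages] using h4
    refine (Set.ncard_le_ncard h3 (Finset.finite_toSet _)).trans ?_
    rw [Set.ncard_coe_finset]
    refine (List.toFinset_card_le _).trans ?_
    rw [ages, List.length_map]
    exact hix.le
  omega

end Pool.Agent.LibZetaOmega
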